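import Pool.Agent.H8.KL.ClsT

/-!
# Project KL, module LinK1: the linear algebra of the `K₁`-part

`HasRel1 G k Q` : for every relation `∑ [C i, u i, z i] ∈ Q` with units `u i = 1` modulo `p ^ 2`, every `c` of finite
order divisible by `p` and every `p`-integral functional `f` on `H_{k+1}(Z_G(c))` the number
`∑ i, ∑ d ∈ C i, f (trc c (C i) d (z i)) * coeff_d (u i ^ p ^ l - 1)` is divisible by `p ^ (2 l - K)`, `K` independent
of `l`.

`linK1` : if `HasRel1 G k Q` and for every finite cyclic `C ≠ 1` the group `H_{k+1}(Z_G(C))` is `p`-separated for one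
prime `p` dividing the order of `C`, then all elements of `Q` have finite order.
-/

set_option autoImplicit false

open Matrix

universe u v w

namespace Pool.Agent.H8.KL

open Pool.Agent.H95.WH (K1 K1.mk K1.map K1.unit K1.map_unit K1.unit_mul FamSub conjHom FinSub uH
  unit_pow)
open Pool.Agent.H71.FQ (HG HG.map centConj)
open Pool.Agent.H16.FU (HnK1 sy1 sy1_add sy1_addz sy1_conj syB1 syB1_apply)
open Pool.Agent.H16.KN (PSepA trc)

section Triv

/-- the units of `ℤ[1]` -/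
theorem unit_sq_of_subsingleton {C : Type v} [Group C] [Subsingleton C]
    (u : (MonoidAlgebra ℤ C)ˣ) : u ^ 2 = 1 := by
  have hx : ∀ x : MonoidAlgebra ℤ C, x = MonoidAlgebra.single 1 (x.coeff 1) := by
    intro x
    apply MonoidAlgebra.coeff_injective
    ext g
    rw [Subsingleton.elim g 1, MonoidAlgebra.coeff_single, Finsupp.single_eq_same]
  have h1 : (u : MonoidAlgebra ℤ C) * ((u⁻¹ : (MonoidAlgebra ℤ C)ˣ) : MonoidAlgebra ℤ C) = 1 :=
    u.mul_inv
  have h3 : (u : MonoidAlgebra ℤ C).coeff 1 * (((u⁻¹ : (MonoidAlgebra ℤ C)ˣ) :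
      MonoidAlgebra ℤ C)).coeff 1 = 1 := by
    rw [hx (u : MonoidAlgebra ℤ C), hx ((u⁻¹ : (MonoidAlgebra ℤ C)ˣ) : MonoidAlgebra ℤ C),
      MonoidAlgebra.single_mul_single, MonoidAlgebra.one_def] at h1
    have h4 := congrArg (fun x : MonoidAlgebra ℤ C => x.coeff 1) h1
    simp only [MonoidAlgebra.coeff_single, mul_one, Finsupp.single_eq_same] at h4
    exact h4
  have h5 : ((u : MonoidAlgebra ℤ C).coeff 1) * ((u : MonoidAlgebra ℤ C).coeff 1) = 1 := by
    rcases Int.eq_one_or_neg_one_of_mul_eq_one h3 with h | h <;> rw [h] <;> rfl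
  apply Units.ext
  rw [Units.val_pow_eq_pow_val, pow_two, hx (u : MonoidAlgebra ℤ C),
    MonoidAlgebra.single_mul_single, h5, mul_one, Units.val_one, MonoidAlgebra.one_def]

variable {G : Type v} [Group G] {k : ℕ}

theorem val_tor_of_card {t : Tr G k} (h : Nat.card t.C = 1) : (2 : ℤ) • t.val = 0 := by
  have h0 := t.fin
  have h1 : Subsingleton t.C := (Nat.card_eq_one_iff_unique.1 h).1
  have h2 : t.val = syB1 ⟨t.C, t.fin⟩ (K1.unit t.u) t.z := rfl
  have h3 : (2 : ℤ) • t.val = syB1 ⟨t.C, t.fin⟩ (2 • K1.unit t.u) t.z := by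
    rw [h2, map_nsmul, AddMonoidHom.coe_smul, Pi.smul_apply, ← natCast_zsmul]
    rfl
  rw [h3, ← unit_pow, unit_sq_of_subsingleton, unit_one', map_zero, AddMonoidHom.zero_apply]

end Triv

section Tor

variable {E : Type u} [AddCommGroup E]

/-- elements of finite order -/
def Tor (x : E) : Prop := ∃ m : ℤ, m ≠ 0 ∧ m • x = 0

theorem Tor.zero : Tor (0 : E) := ⟨1, one_ne_zero, smul_zero _⟩

theorem Tor.add {x y : E} (hx : Tor x) (hy : Tor y) : Tor (x + y) := by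
  obtain ⟨m, hm, h⟩ := hx
  obtain ⟨n, hn, h'⟩ := hy
  refine ⟨m * n, mul_ne_zero hm hn, ?_⟩
  rw [smul_add, mul_smul m n y, h', smul_zero, add_zero, mul_comm, mul_smul, h, smul_zero]

theorem Tor.sum {ι : Type*} (s : Finset ι) (f : ι → E) (h : ∀ i ∈ s, Tor (f i)) :
    Tor (∑ i ∈ s, f i) := by
  classical
  induction s using Finset.induction_on with
  | empty => rw [Finset.sum_empty]; exact Tor.zero
  | insert i s hi ih =>
    rw [Finset.sum_insert hi]
    exact (h i (Finset.mem_insert_self i s)).add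
      (ih fun j hj => h j (Finset.mem_insert_of_mem hj))

end Tor

section Main

variable {G : Type v} [Group G] {k : ℕ}

theorem Cj.refl (C : Subgroup G) : Cj C C := ⟨1, by simp, by simp⟩

theorem Cj.symm {C C' : Subgroup G} (h : Cj C C') : Cj C' C := by
  obtain ⟨g, h1, h2⟩ := h
  refine ⟨g⁻¹, h2, fun y hy => ?_⟩
  have h3 := h1 y hy
  rw [inv_inv]
  exact h3

theorem Cj.trans {C C' C'' : Subgroup G} (h : Cj C C') (h' : Cj C' C'') : Cj C C'' := by
  obtain ⟨g, h1, h2⟩ := h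
  obtain ⟨g', h1', h2'⟩ := h'
  refine ⟨g' * g, fun y hy => ?_, fun y hy => ?_⟩
  · have h3 := h1' _ (h1 y hy)
    have h4 : g' * g * y * (g' * g)⁻¹ = g' * (g * y * g⁻¹) * g'⁻¹ := by group
    rw [h4]
    exact h3
  · have h3 := h2 _ (h2' y hy)
    have h4 : (g' * g)⁻¹ * y * (g' * g)⁻¹⁻¹ = g⁻¹ * (g'⁻¹ * y * g'⁻¹⁻¹) * g⁻¹⁻¹ := by group
    rw [h4]
    exact h3

/-- the relations of the functionals, see the header -/
def HasRel1 (G : Type v) [Group G] (k : ℕ) (Q : AddSubgroup (HnK1 ℤ G k)) : Prop :=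
  ∀ (p : ℕ), p.Prime → ∀ (n : ℕ) (C : Fin n → Subgroup G) (hC : ∀ i, Finite (C i)),
    (∀ i, IsCyclic (C i)) → ∀ [∀ i, Fintype (C i)] (u : ∀ i, (MonoidAlgebra ℤ (C i))ˣ)
    (z : ∀ i, HG (Subgroup.centralizer (C i : Set G)) k),
    (∀ i, ∃ a, (u i : MonoidAlgebra ℤ (C i)) = 1 + (p : MonoidAlgebra ℤ (C i)) ^ 2 * a) →
    ∑ i, sy1 ⟨C i, hC i⟩ (K1.unit (u i)) (z i) ∈ Q →
    ∀ c : G, IsOfFinOrder c → p ∣ orderOf c →
    ∀ f : HG (Subgroup.centralizer ({c} : Set G)) k →+ ℚ, (∀ y, ¬ p ∣ (f y).den) →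
    ∃ K : ℕ, ∀ l : ℕ, ¬ p ∣ ((p : ℚ) ^ K * (∑ i, ∑ d : C i, f (trc k c (C i) d (z i)) *
      ((((u i : MonoidAlgebra ℤ (C i)) ^ p ^ l - 1).coeff d : ℤ) : ℚ)) / (p : ℚ) ^ (2 * l)).den

/-- the relations in terms of the logarithm -/
theorem rel_TU {Q : AddSubgroup (HnK1 ℤ G k)} (hQ : HasRel1 G k Q) {n : ℕ} (t : Fin n → Tr G k)
    [∀ i, Fintype (t i).C] (ht : ∑ i, (t i).val ∈ Q) (p : ℕ) [hp : Fact p.Prime] (c : G)
    (hc : IsOfFinOrder c) (hpc : p ∣ orderOf c)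
    (f : HG (Subgroup.centralizer ({c} : Set G)) k →+ ℚ) (hf : ∀ y, ¬ p ∣ (f y).den) :
    ∑ i, ∑ d : (t i).C, f (trc k c (t i).C d (t i).z) • TU p (t i).u d = 0 := by
  classical
  have hfin : ∀ i, Finite (t i).C := fun i => (t i).fin
  have h1 : ∀ i, ∃ m : ℕ, 0 < m ∧ One2 p (((t i).u ^ m : (MonoidAlgebra ℤ (t i).C)ˣ) :
      MonoidAlgebra ℤ (t i).C) := fun i => finP (C := (t i).C) p (t i).u
  choose m hm h1 using h1
  obtain ⟨M, hM⟩ : ∃ M, M = ∏ i, m i := ⟨_, rfl⟩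
  have hM0 : 0 < M := by
    rw [hM]
    exact Finset.prod_pos fun i _ => hm i
  have h2 : ∀ i, One2 p (((t i).u ^ M : (MonoidAlgebra ℤ (t i).C)ˣ) :
      MonoidAlgebra ℤ (t i).C) := by
    intro i
    obtain ⟨q, hq⟩ : m i ∣ M := by
      rw [hM]
      exact Finset.dvd_prod_of_mem _ (Finset.mem_univ i)
    rw [hq, pow_mul, Units.val_pow_eq_pow_val]
    exact (h1 i).pow p q
  have h3 : ∑ i, sy1 (k := ℤ) ⟨(t i).C, (t i).fin⟩ (K1.unit ((t i).u ^ M)) (t i).z ∈ Q := by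
    have h4 : ∑ i, sy1 (k := ℤ) ⟨(t i).C, (t i).fin⟩ (K1.unit ((t i).u ^ M)) (t i).z =
        M • ∑ i, (t i).val := by
      rw [Finset.smul_sum]
      refine Finset.sum_congr rfl fun i _ => ?_
      have h5 : (t i).val = syB1 ⟨(t i).C, (t i).fin⟩ (K1.unit (t i).u) (t i).z := rfl
      rw [unit_pow, ← syB1_apply, h5, map_nsmul, AddMonoidHom.coe_smul, Pi.smul_apply]
    rw [h4]
    exact AddSubgroup.nsmul_mem _ ht M
  obtain ⟨K, hK⟩ := hQ p hp.out n (fun i => (t i).C) (fun i => (t i).fin) (fun i => (t i).cyc)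
    (fun i => (t i).u ^ M) (fun i => (t i).z) (fun i => h2 i) h3 c hc hpc f hf
  have h4 : ∑ i, ∑ d : (t i).C, f (trc k c (t i).C d (t i).z) •
      lg p (cf d) (((t i).u ^ M : (MonoidAlgebra ℤ (t i).C)ˣ) : MonoidAlgebra ℤ (t i).C) = 0 := by
    unfold lg
    simp only [← map_smul, ← map_sum]
    rw [cA_eq_zero]
    refine ⟨K, fun l => ?_⟩
    have h5 := hK l
    rw [← mem_ZP] at h5
    have h6 : (∑ i, ∑ d : (t i).C, f (trc k c (t i).C d (t i).z) • fun l : ℕ =>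
        ((cf d ((((t i).u ^ M : (MonoidAlgebra ℤ (t i).C)ˣ) : MonoidAlgebra ℤ (t i).C) ^ p ^ l - 1) :
          ℤ) : ℚ) / (p : ℚ) ^ l) l = (∑ i, ∑ d : (t i).C, f (trc k c (t i).C d (t i).z) *
      ((((((t i).u ^ M : (MonoidAlgebra ℤ (t i).C)ˣ) : MonoidAlgebra ℤ (t i).C) ^ p ^ l - 1).coeff d :
        ℤ) : ℚ)) / (p : ℚ) ^ l := by
      rw [Finset.sum_apply, Finset.sum_div]
      refine Finset.sum_congr rfl fun i _ => ?_
      rw [Finset.sum_apply, Finset.sum_div]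
      refine Finset.sum_congr rfl fun d _ => ?_
      rw [Pi.smul_apply, smul_eq_mul, mul_div_assoc]
      rfl
    rw [h6]
    have h7 : (p : ℚ) ^ (2 * l) = (p : ℚ) ^ l * (p : ℚ) ^ l := by
      rw [two_mul, pow_add]
    rw [h7, ← div_div, mul_div_assoc] at h5
    exact h5
  have hMq : (M : ℚ) ≠ 0 := Nat.cast_ne_zero.2 hM0.ne'
  have h5 : (M : ℚ)⁻¹ • ∑ i, ∑ d : (t i).C, f (trc k c (t i).C d (t i).z) •
      lg p (cf d) (((t i).u ^ M : (MonoidAlgebra ℤ (t i).C)ˣ) : MonoidAlgebra ℤ (t i).C) = 0 := by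
    rw [h4, smul_zero]
  rw [← h5, Finset.smul_sum]
  refine Finset.sum_congr rfl fun i _ => ?_
  rw [Finset.smul_sum]
  refine Finset.sum_congr rfl fun d _ => ?_
  rw [smul_comm]
  congr 1
  exact lgU_eq p (ma_comm (t i).comm) _ hM0 (h2 i)

open scoped Classical in
/-- **The linear algebra of the `K₁`-part.** -/
theorem linK1 (Q : AddSubgroup (HnK1 ℤ G k)) (hQ : HasRel1 G k Q)
    (hsep : ∀ C : Subgroup G, Finite C → IsCyclic C → C ≠ ⊥ →
      ∃ p : ℕ, p.Prime ∧ p ∣ Nat.card C ∧ PSepA p (HG (Subgroup.centralizer (C : Set G)) k))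
    (w : HnK1 ℤ G k) (hw : w ∈ Q) : ∃ m : ℤ, m ≠ 0 ∧ m • w = 0 := by
  obtain ⟨M, n, t, hM, hprim, hsum⟩ := exists_prim w
  have hfin : ∀ i, Finite (t i).C := fun i => (t i).fin
  let _ : ∀ i, Fintype (t i).C := fun i => Fintype.ofFinite _
  have ht : ∑ i, (t i).val ∈ Q := by
    rw [← hsum]
    exact AddSubgroup.nsmul_mem _ hw M
  let s : Setoid (Fin n) :=
    { r := fun i j => Cj (t i).C (t j).C
      iseqv := ⟨fun i => Cj.refl _, fun h => h.symm, fun h h' => h.trans h'⟩ }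
  have htor : Tor (∑ i, (t i).val) := by
    rw [← Finset.sum_fiberwise Finset.univ (fun i => (Quotient.mk s i))]
    refine Tor.sum _ _ fun q _ => ?_
    obtain ⟨j, rfl⟩ := Quotient.exists_rep q
    rw [Finset.sum_subtype (p := fun i => Cj (t i).C (t j).C) _ (by
      intro i
      rw [Finset.mem_filter]
      constructor
      · rintro ⟨_, h⟩
        exact Quotient.exact h
      · intro h
        exact ⟨Finset.mem_univ _, Quotient.sound h⟩)]
    by_cases hb : (t j).C = ⊥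
    · refine Tor.sum _ _ fun i _ => ⟨2, two_ne_zero, val_tor_of_card ?_⟩
      rw [i.2.card_eq, hb]
      exact Subgroup.card_bot
    · obtain ⟨p, hp, hpC, hsp⟩ := hsep (t j).C (t j).fin (t j).cyc hb
      have : Fact p.Prime := ⟨hp⟩
      exact cls_tor t hprim (fun c hc hpc f hf => rel_TU hQ t ht p c hc hpc f hf) (t j).C
        (t j).fin (t j).cyc hpC hsp
  obtain ⟨m, hm, h⟩ := htor
  refine ⟨m * M, mul_ne_zero hm (by exact_mod_cast hM.ne'), ?_⟩
  rw [mul_smul, natCast_zsmul, hsum, h]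

end Main

end Pool.Agent.H8.KL
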