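import Pool.Agent.H8.KL.ClsS
import Pool.Agent.H71.FU0.Defs0

/-!
# Project KL, module InstS: the two systems of coefficients

`hgS G k` : `M C = H_{k+1}(Z_G(C); ℤ)`, symbols in `HnK1 ℤ G k`.
`zS G` : `M C = ℤ`, symbols in the colimit `H0K1 ℤ G` of the groups `K₁(ℤ[F])`.

`linHG`, `linZ` : the theorem `linS` for them.
-/

set_option autoImplicit false

open Matrix

universe u v w

namespace Pool.Agent.H8.KL

open Pool.Agent.H95.WH (K1 K1.mk K1.map K1.unit K1.map_unit K1.unit_mul FamSub conjHom FinSub uH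
  conjHom_injective unit_pow)
open Pool.Agent.H71.FQ (HG HG.map centConj)
open Pool.Agent.H16.FU (HnK1 sy1 sy1_conj syB1 syB1_apply hnk1_induction)
open Pool.Agent.H16.KN (PSepA trc trc_of_not trc_eq)
open Pool.Agent.H71.FU0 (H0K1 cl cl_conj h0k1_induction)

section HG

variable (G : Type v) [Group G] (k : ℕ)

/-- the coefficients `H_{k+1}(Z_G(C); ℤ)` -/
noncomputable def hgS : CoefS.{v, v, v, v} G where
  M C := HG (Subgroup.centralizer (C : Set G)) k
  tr g F F' h := HG.map k (centConj g F F' h)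
  N c := HG (Subgroup.centralizer ({c} : Set G)) k
  trc c C d := trc k c C d
  kap C₀ e he := HG.map k (kap C₀ e he)
  trc_of_not h := trc_of_not h
  kap_trc C₀ e he C x h2 d hd z := by
    rw [trc_eq x hd (by rw [hd]; exact d.2), HG.map_map]
    rfl
  E := HnK1 ℤ G k
  sy F := syB1 F
  sy_conj F F' g h x z := sy1_conj F F' g h x z
  gen := by
    rw [eq_top_iff]
    rintro x -
    induction x using hnk1_induction with
    | h0 => exact zero_mem _
    | h1 F x z => exact AddSubgroup.subset_closure ⟨F, x, z, rfl⟩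
    | h2 a b ha hb => exact add_mem ha hb
    | h3 a ha => exact neg_mem ha

variable {G k}

/-- **The linear algebra of the `K₁`-part, coefficients `H_{k+1}(Z_G(C); ℤ)`.** -/
theorem linHG (P : HnK1 ℤ G k → Prop) (hP : ∀ (m : ℕ) (x : HnK1 ℤ G k), P x → P (m • x))
    (hQ : ∀ (p : ℕ), p.Prime → ∀ (n : ℕ) (C : Fin n → Subgroup G) (hC : ∀ i, Finite (C i)),
      (∀ i, IsCyclic (C i)) → ∀ [∀ i, Fintype (C i)] (u : ∀ i, (MonoidAlgebra ℤ (C i))ˣ)
      (z : ∀ i, HG (Subgroup.centralizer (C i : Set G)) k),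
      (∀ i, ∃ a, (u i : MonoidAlgebra ℤ (C i)) = 1 + (p : MonoidAlgebra ℤ (C i)) ^ 2 * a) →
      P (∑ i, sy1 ⟨C i, hC i⟩ (K1.unit (u i)) (z i)) →
      ∀ c : G, IsOfFinOrder c → p ∣ orderOf c →
      ∀ f : HG (Subgroup.centralizer ({c} : Set G)) k →+ ℚ, (∀ y, ¬ p ∣ (f y).den) →
      ∃ K : ℕ, ∀ l : ℕ, ¬ p ∣ ((p : ℚ) ^ K * (∑ i, ∑ d : C i, f (trc k c (C i) d (z i)) *
        ((((u i : MonoidAlgebra ℤ (C i)) ^ p ^ l - 1).coeff d : ℤ) : ℚ)) / (p : ℚ) ^ (2 * l)).den)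
    (hsep : ∀ C : Subgroup G, Finite C → IsCyclic C → C ≠ ⊥ →
      ∃ p : ℕ, p.Prime ∧ p ∣ Nat.card C ∧ PSepA p (HG (Subgroup.centralizer (C : Set G)) k))
    (w : HnK1 ℤ G k) (hw : P w) : ∃ m : ℤ, m ≠ 0 ∧ m • w = 0 :=
  linS (S := hgS G k) P hP hQ hsep w hw

end HG

section Z

variable (G : Type v) [Group G]

open scoped Classical in
/-- the coefficients `ℤ` -/
noncomputable def zS : CoefS.{v, 0, 0, v} G where
  M _ := ℤ
  tr _ _ _ _ := AddMonoidHom.id ℤ
  N _ := ℤ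
  trc c C d := if IsConj c (d : G) then AddMonoidHom.id ℤ else 0
  kap _ _ _ := AddMonoidHom.id ℤ
  trc_of_not h := if_neg h
  kap_trc C₀ e he C x h2 d hd z := by
    rw [if_pos (isConj_iff.2 ⟨x, hd⟩)]
    rfl
  E := H0K1 ℤ G
  sy F := AddMonoidHom.mk' (fun x => zmultiplesHom (H0K1 ℤ G) (cl F x)) (fun x y => by
    ext
    rw [map_add, AddMonoidHom.add_apply, zmultiplesHom_apply, zmultiplesHom_apply,
      zmultiplesHom_apply, one_smul, one_smul, one_smul])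
  sy_conj F F' g h x z := by
    change z • cl F' _ = z • cl F x
    rw [cl_conj]
  gen := by
    rw [eq_top_iff]
    rintro x -
    induction x using h0k1_induction with
    | h0 => exact zero_mem _
    | h1 F x =>
      refine AddSubgroup.subset_closure ⟨F, x, (1 : ℤ), ?_⟩
      change cl F x = (1 : ℤ) • cl F x
      rw [one_smul]
    | h2 a b ha hb => exact add_mem ha hb
    | h3 a ha => exact neg_mem ha

theorem PSepA_int {p : ℕ} (hp : p.Prime) : PSepA p ℤ := by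
  intro x hx
  refine ⟨1, one_ne_zero, ?_⟩
  have h := hx (Int.castAddHom ℚ) fun y => by
    change ¬ p ∣ ((y : ℚ)).den
    rw [Rat.den_intCast]
    exact fun h => hp.one_lt.ne' (Nat.dvd_one.1 h)
  rw [one_smul]
  have h1 : ((x : ℤ) : ℚ) = 0 := h
  exact_mod_cast h1

variable {G}

open scoped Classical in
/-- **The linear algebra of the `K₁`-part, coefficients `ℤ`.** -/
theorem linZ (P : H0K1 ℤ G → Prop) (hP : ∀ (m : ℕ) (x : H0K1 ℤ G), P x → P (m • x))
    (hQ : ∀ (p : ℕ), p.Prime → ∀ (n : ℕ) (C : Fin n → Subgroup G) (hC : ∀ i, Finite (C i)),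
      (∀ i, IsCyclic (C i)) → ∀ [∀ i, Fintype (C i)] (u : ∀ i, (MonoidAlgebra ℤ (C i))ˣ)
      (z : Fin n → ℤ),
      (∀ i, ∃ a, (u i : MonoidAlgebra ℤ (C i)) = 1 + (p : MonoidAlgebra ℤ (C i)) ^ 2 * a) →
      P (∑ i, z i • cl ⟨C i, hC i⟩ (K1.unit (u i))) →
      ∀ c : G, IsOfFinOrder c → p ∣ orderOf c →
      ∃ K : ℕ, ∀ l : ℕ, ¬ p ∣ ((p : ℚ) ^ K * (∑ i, ∑ d : C i, (if IsConj c (d : G) then
        (z i : ℚ) * ((((u i : MonoidAlgebra ℤ (C i)) ^ p ^ l - 1).coeff d : ℤ) : ℚ) else 0)) /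
          (p : ℚ) ^ (2 * l)).den)
    (w : H0K1 ℤ G) (hw : P w) : ∃ m : ℤ, m ≠ 0 ∧ m • w = 0 := by
  refine linS (S := zS G) P hP ?_ ?_ w hw
  · intro p hp n C hC hcyc iF u z hu hPs c hc hpc f hf
    have key : ∀ (z : Fin n → ℤ) (f : ℤ →+ ℚ), (∀ y, ¬ p ∣ (f y).den) →
        P (∑ i, z i • cl ⟨C i, hC i⟩ (K1.unit (u i))) →
        ∃ K : ℕ, ∀ l : ℕ, ¬ p ∣ ((p : ℚ) ^ K * (∑ i, ∑ d : C i,
          f ((if IsConj c (d : G) then AddMonoidHom.id ℤ else 0) (z i)) *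
          ((((u i : MonoidAlgebra ℤ (C i)) ^ p ^ l - 1).coeff d : ℤ) : ℚ)) /
            (p : ℚ) ^ (2 * l)).den := by
      clear hf hPs
      intro z f hf hPs
      obtain ⟨K, hK⟩ := hQ p hp n C hC hcyc u z hu hPs c hc hpc
      have : Fact p.Prime := ⟨hp⟩
      refine ⟨K, fun l => ?_⟩
      have h1 := (ZP p).mul_mem (mem_ZP.2 (hf (1 : ℤ))) (mem_ZP.2 (hK l))
      rw [← mem_ZP]
      have h3 : ∑ i, ∑ d : C i, f ((if IsConj c (d : G) then AddMonoidHom.id ℤ else 0) (z i)) *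
          ((((u i : MonoidAlgebra ℤ (C i)) ^ p ^ l - 1).coeff d : ℤ) : ℚ) =
          f (1 : ℤ) * ∑ i, ∑ d : C i, (if IsConj c (d : G) then
          (z i : ℚ) * ((((u i : MonoidAlgebra ℤ (C i)) ^ p ^ l - 1).coeff d : ℤ) : ℚ) else 0) := by
        rw [Finset.mul_sum]
        refine Finset.sum_congr rfl fun i _ => ?_
        rw [Finset.mul_sum]
        refine Finset.sum_congr rfl fun d _ => ?_
        by_cases hcd : IsConj c (d : G)
        · have h5 : f (z i) = (z i : ℚ) * f (1 : ℤ) := by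
            have h6 := map_zsmul f (z i) (1 : ℤ)
            rw [smul_eq_mul, mul_one, zsmul_eq_mul] at h6
            exact h6
          rw [if_pos hcd, if_pos hcd, AddMonoidHom.id_apply, h5]
          ring
        · rw [if_neg hcd, if_neg hcd, AddMonoidHom.zero_apply, map_zero, zero_mul, mul_zero]
      rw [h3]
      have h2 : (p : ℚ) ^ K * (f (1 : ℤ) * ∑ i, ∑ d : C i, (if IsConj c (d : G) then
          (z i : ℚ) * ((((u i : MonoidAlgebra ℤ (C i)) ^ p ^ l - 1).coeff d : ℤ) : ℚ) else 0)) /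
          (p : ℚ) ^ (2 * l) =
          f (1 : ℤ) * ((p : ℚ) ^ K * (∑ i, ∑ d : C i, (if IsConj c (d : G) then
          (z i : ℚ) * ((((u i : MonoidAlgebra ℤ (C i)) ^ p ^ l - 1).coeff d : ℤ) : ℚ) else 0)) /
            (p : ℚ) ^ (2 * l)) := by
        ring
      rw [h2]
      exact h1
    exact key z f hf hPs
  · intro C hfin hcyc hC
    have h1 : Nat.card C ≠ 1 := fun h => hC (Subgroup.card_eq_one.1 h)
    obtain ⟨p, hp, hpC⟩ := Nat.exists_prime_and_dvd h1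
    exact ⟨p, hp, hpC, PSepA_int hp⟩

end Z

end Pool.Agent.H8.KL
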