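import Pool.Agent.H8.KL.LocM
import Pool.Agent.H39.KL.Main1

/-!
# Project KL: rational injectivity of the joint assembly map for groups with the local condition

Every finite subset of `G` lies in a subgroup `G'` in which for every prime `p` the elements of `p`-power order have
bounded order (not needed in the degree zero) and the condition `SepC` on the centralizers holds.  Then the assembly maps
`asmAll G k` (degree `k + 2`), `asmOne G` (degree one) and `asm0 G` (degree zero) are injective after tensoring with `ℚ`.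
-/

set_option autoImplicit false

open Matrix
open scoped LaurentPolynomial

universe u v w

namespace Pool.Agent.H8.KL

open Pool.Agent.H71.FQ Pool.Agent.H16.KN Pool.Agent.H16.FU Pool.Agent.H39.KL

section

/-- the source of `asm0` -/
abbrev XZero (G : Type v) [Group G] : Type v := ℤ × HnKm1 ℤ G 0

/-- functoriality of the source of `asm0` -/
noncomputable def mapZero (G G' : Type v) [Group G] [Group G'] (φ : G →* G') :
    XZero G →+ XZero G' :=
  (AddMonoidHom.id ℤ).prodMap (mapHN ℤ 0 φ)

theorem mapZero_mapZero (G G' G'' : Type v) [Group G] [Group G'] [Group G'']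
    (φ : G →* G') (ψ : G' →* G'') (z : XZero G) :
    mapZero G' G'' ψ (mapZero G G' φ z) = mapZero G G'' (ψ.comp φ) z :=
  Prod.ext rfl (mapHN_mapHN ℤ 0 φ ψ z.2)

/-- **The joint assembly map in degree zero is natural in the group.** -/
theorem asm0_map (G G' : Type v) [Group G] [Group G'] (φ : G →* G') (z : XZero G) :
    asm0 G' (mapZero G G' φ z) =
      LKQ.map (MonoidAlgebra.mapDomainRingHom ℤ φ) (asm0 G z) := by
  change z.1 • LKQ.mk (tOne (MonoidAlgebra ℤ G')) + asmKm1 ℤ 0 G' (mapHN ℤ 0 φ z.2) =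
    LKQ.map (MonoidAlgebra.mapDomainRingHom ℤ φ)
      (z.1 • LKQ.mk (tOne (MonoidAlgebra ℤ G)) + asmKm1 ℤ 0 G z.2)
  rw [map_add, map_zsmul, LKQ.map_mk, map_tOne, asmKm1_map]

theorem exists_liftZero (G : Type v) [Group G] (z : XZero G) :
    ∃ S : Finset G, ∀ G' : Subgroup G, (∀ s ∈ S, s ∈ G') →
      ∃ y : XZero G', mapZero G' G G'.subtype y = z := by
  obtain ⟨S, h⟩ := exists_liftN ℤ 0 z.2
  refine ⟨S, fun G' hG' => ?_⟩
  obtain ⟨y, e⟩ := h G' hG'
  exact ⟨(z.1, y), Prod.ext rfl e⟩

/-- **Rational injectivity of the joint assembly map in degree zero is a local property.** -/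
theorem asm0_directed (G : Type v) [Group G] (P : Subgroup G → Prop)
    (hP : ∀ S : Finset G, ∃ G' : Subgroup G, P G' ∧ ∀ g ∈ S, g ∈ G')
    (h : ∀ G' : Subgroup G, P G' → RatInj (asm0 G')) : RatInj (asm0 G) := by
  refine @ratInj_local ℤ _ G _ 0 (fun H _ => XZero H) (fun H _ => Prod.instAddCommGroup)
    (fun H H' _ _ φ => mapZero H H' φ) ?_ (fun H _ => asm0 H) ?_ ?_ P hP h
  · exact fun H H' H'' _ _ _ φ ψ z => mapZero_mapZero H H' H'' φ ψ z
  · exact fun H H' _ _ φ z => asm0_map H H' φ z
  · exact exists_liftZero G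

end

section

variable (G : Type u) [Group G]

/-- **The joint assembly map in the degree `k + 2`, local condition.** -/
theorem loc_asmAll (k : ℕ) (h : ∀ S : Finset G, ∃ G' : Subgroup G,
    (BddT G' ∧ SepC G' k ∧ SepC G' (k + 2)) ∧ ∀ g ∈ S, g ∈ G') : RatInj (asmAll G k) :=
  asmAll_directed G k (fun G' => BddT G' ∧ SepC G' k ∧ SepC G' (k + 2)) h
    fun _ h' => ratInj_asmAll h'.1 h'.2.1 h'.2.2

/-- **The joint assembly map in the degree one, local condition.** -/
theorem loc_asmOne (h : ∀ S : Finset G, ∃ G' : Subgroup G,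
    (BddT G' ∧ SepC G' 1) ∧ ∀ g ∈ S, g ∈ G') : RatInj (asmOne G) :=
  asmOne_directed G (fun G' => BddT G' ∧ SepC G' 1) h fun _ h' => ratInj_asmOne h'.1 h'.2

/-- **The joint assembly map in the degree zero, local condition.** -/
theorem loc_asm0 (h : ∀ S : Finset G, ∃ G' : Subgroup G,
    SepC G' 0 ∧ ∀ g ∈ S, g ∈ G') : RatInj (asm0 G) :=
  asm0_directed G (fun G' => SepC G' 0) h fun _ h' => ratInj_asmZero h'

end

end Pool.Agent.H8.KL
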