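import Pool.Agent.H71.DB.Elim
import Pool.Agent.H16.KN.LinSN

/-!
# Project KL, module ElimS: elimination with `p`-integral functionals

`elim_sep` : `β : X → H → E` biadditive, `T : X → V` additive, `V` a vector space over `ℚ`, with torsion kernel, and `H`
`p`-separated.  If `∑ j, f (h j) T (x j) = 0` for all `p`-integral `f : H → ℚ` then `∑ j, β (x j) (h j)` is torsion.
-/

set_option autoImplicit false

universe u v w t

namespace Pool.Agent.H8.KL

open Pool.Agent.H71.DB (elim' exists_common_denom)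
open Pool.Agent.H16.KN (PSepA sep_homA)

theorem elim_sep {p : ℕ} {X : Type u} [AddCommGroup X] {H : Type v} [AddCommGroup H] {E : Type w}
    [AddCommGroup E] {V : Type t} [AddCommGroup V] [Module ℚ V] (β : X →+ H →+ E) (T : X →+ V)
    (hT : ∀ x, T x = 0 → ∃ m : ℤ, m ≠ 0 ∧ m • x = 0) (hsep : PSepA p H) {ι : Type*} [Fintype ι]
    (x : ι → X) (h : ι → H)
    (h0 : ∀ f : H →+ ℚ, (∀ y, ¬ p ∣ (f y).den) → ∑ j, f (h j) • T (x j) = 0) :
    ∃ m : ℤ, m ≠ 0 ∧ m • ∑ j, β (x j) (h j) = 0 := by
  classical
  refine elim' β x h fun μ m a hm ha => ?_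
  apply hT
  -- the relation for `μ`
  have h1 : ∑ j, μ (h j) • T (x j) = 0 := by
    let b := Module.Basis.ofVectorSpace ℚ V
    apply b.repr.injective
    ext i
    have h2 := sep_homA (L := ℚ) hsep (fun j => b.repr (T (x j)) i) h (fun lam hlam => by
      have h3 := congrArg (fun v => b.repr v i) (h0 lam hlam)
      simp only [map_sum, map_smul, map_zero, Finsupp.coe_zero, Pi.zero_apply,
        Finsupp.finsetSum_apply, Finsupp.smul_apply, smul_eq_mul] at h3
      rw [← h3]
      refine Finset.sum_congr rfl fun j _ => ?_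
      rw [Rat.cast_id, mul_comm]) μ
    simp only [map_sum, map_smul, map_zero, Finsupp.coe_zero, Pi.zero_apply,
      Finsupp.finsetSum_apply, Finsupp.smul_apply, smul_eq_mul]
    rw [← h2]
    refine Finset.sum_congr rfl fun j _ => ?_
    rw [mul_comm]
  have h3 := congrArg (fun v => (m : ℚ) • v) h1
  simp only [Finset.smul_sum, smul_smul, smul_zero] at h3
  rw [map_sum, ← h3]
  refine Finset.sum_congr rfl fun j _ => ?_
  rw [map_zsmul, ha j, Int.cast_smul_eq_zsmul]

end Pool.Agent.H8.KL
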