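import Pool.Agent.H8.KL.Prim
import Pool.Agent.H8.KL.ElimS
import Pool.Agent.H16.KN.LinDN

/-!
# Project KL, module ClsT: the symbols of one conjugacy class of cyclic subgroups

`cls_tor` : let `t j` be primitive symbols with the relations
`∑ j, ∑ d ∈ C j, f (trc c (C j) d (z j)) TU p (u j) d = 0` for all `c` of finite order divisible by `p` and all
`p`-integral functionals `f` on `H_{k+1}(Z_G(c))`.  Let `C₀` be finite cyclic of order divisible by `p` with
`H_{k+1}(Z_G(C₀))` `p`-separated.  Then the sum of the `t j` with `C j` conjugate to `C₀` is torsion.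
-/

set_option autoImplicit false

open Matrix

universe u v w

namespace Pool.Agent.H8.KL

open Pool.Agent.H95.WH (K1 K1.mk K1.map K1.unit K1.map_unit K1.unit_mul FamSub conjHom FinSub uH
  conjHom_injective)
open Pool.Agent.H71.FQ (HG HG.map centConj)
open Pool.Agent.H16.FU (HnK1 sy1 sy1_add sy1_addz sy1_conj syB1 syB1_apply)
open Pool.Agent.H16.KN (PSepA trc cnj trc_of_not trc_eq)

section CI

variable {G : Type v} [Group G]

/-- homomorphisms given by conjugation -/
def CI (C₀ C : Subgroup G) (φ : C₀ →* C) : Prop := ∃ x : G, ∀ y : C₀, (φ y : G) = x * y * x⁻¹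

/-- conjugate subgroups -/
def Cj (C C' : Subgroup G) : Prop :=
  ∃ g : G, (∀ y ∈ C, g * y * g⁻¹ ∈ C') ∧ ∀ y ∈ C', g⁻¹ * y * g⁻¹⁻¹ ∈ C

theorem Cj.card_eq {C C' : Subgroup G} [Finite C] [Finite C'] (h : Cj C C') :
    Nat.card C = Nat.card C' := by
  obtain ⟨g, h1, h2⟩ := h
  exact le_antisymm (Nat.card_le_card_of_injective _ (conjHom_injective g C C' h1))
    (Nat.card_le_card_of_injective _ (conjHom_injective g⁻¹ C' C h2))

/-- the inverse of a conjugation of finite subgroups of the same order -/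
theorem inv_mem_of_card {C₀ C : Subgroup G} [Finite C₀] [Finite C]
    (hcard : Nat.card C = Nat.card C₀) {x : G} (h : ∀ y ∈ C₀, x * y * x⁻¹ ∈ C) :
    ∀ y ∈ C, x⁻¹ * y * x⁻¹⁻¹ ∈ C₀ := by
  intro y hy
  have hinj := conjHom_injective x C₀ C h
  have hbij : Function.Bijective (conjHom x C₀ C h) :=
    (Nat.bijective_iff_injective_and_card _).2 ⟨hinj, hcard.symm⟩
  obtain ⟨y', hy'⟩ := hbij.2 ⟨y, hy⟩
  have h1 : x * (y' : G) * x⁻¹ = y := congrArg (fun a : C => (a : G)) hy'
  rw [← h1]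
  have h2 : x⁻¹ * (x * (y' : G) * x⁻¹) * x⁻¹⁻¹ = y' := by group
  rw [h2]
  exact y'.2

instance finite_hom (C₀ C : Subgroup G) [Finite C₀] [Finite C] : Finite (C₀ →* C) :=
  Finite.of_injective (fun φ : C₀ →* C => (φ : C₀ → C)) DFunLike.coe_injective

theorem card_CI {C₀ C : Subgroup G} (h : Cj C C₀) :
    Nat.card {φ : C₀ →* C // CI C₀ C φ} = Nat.card {φ : C₀ →* C₀ // CI C₀ C₀ φ} := by
  obtain ⟨g, h1, h2⟩ := h
  refine Nat.card_congr
    { toFun := fun φ => ⟨(conjHom g C C₀ h1).comp φ.1, ?_⟩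
      invFun := fun φ => ⟨(conjHom g⁻¹ C₀ C h2).comp φ.1, ?_⟩
      left_inv := ?_
      right_inv := ?_ }
  · obtain ⟨x, hx⟩ := φ.2
    refine ⟨g * x, fun y => ?_⟩
    change g * (φ.1 y : G) * g⁻¹ = _
    rw [hx]
    group
  · obtain ⟨x, hx⟩ := φ.2
    refine ⟨g⁻¹ * x, fun y => ?_⟩
    change g⁻¹ * (φ.1 y : G) * g⁻¹⁻¹ = _
    rw [hx]
    group
  · intro φ
    apply Subtype.ext
    ext y
    change g⁻¹ * (g * (φ.1 y : G) * g⁻¹) * g⁻¹⁻¹ = _
    group
  · intro φ
    apply Subtype.ext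
    ext y
    change g * (g⁻¹ * (φ.1 y : G) * g⁻¹⁻¹) * g⁻¹ = _
    group

theorem orderOf_conj' (x y : G) : orderOf (x * y * x⁻¹) = orderOf y :=
  (MulAut.conj x).orderOf_eq y

theorem zpowers_eq_of_card {C : Subgroup G} [Finite C] {e : G} (he : e ∈ C)
    (ho : orderOf e = Nat.card C) : Subgroup.zpowers e = C := by
  have h1 : Subgroup.zpowers e ≤ C := Subgroup.zpowers_le.2 he
  refine Subgroup.eq_of_le_of_card_ge h1 ?_
  rw [Nat.card_zpowers, ho]

end CI

section Cls

variable {G : Type v} [Group G] {k : ℕ}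

/-- transport of a symbol by a conjugation -/
theorem val_eq (t : Tr G k) {C₀ : Subgroup G} (hC₀ : FinSub C₀) (x : G)
    (h2 : ∀ y ∈ C₀, x * y * x⁻¹ ∈ t.C) (h1 : ∀ y ∈ t.C, x⁻¹ * y * x⁻¹⁻¹ ∈ C₀) :
    t.val = sy1 ⟨C₀, hC₀⟩ (K1.unit (mU (conjHom x⁻¹ t.C C₀ h1) t.u))
      (HG.map k (centConj x C₀ t.C h2) t.z) := by
  have h3 := sy1_conj (k := ℤ) (n := k) ⟨C₀, hC₀⟩ ⟨t.C, t.fin⟩ x h2
    (K1.unit (mU (conjHom x⁻¹ t.C C₀ h1) t.u)) t.z
  refine Eq.trans ?_ h3
  rw [K1.map_unit]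
  unfold Tr.val
  congr 2
  have h4 : (conjHom x C₀ t.C h2).comp (conjHom x⁻¹ t.C C₀ h1) = MonoidHom.id t.C := by
    ext y
    change x * (x⁻¹ * (y : G) * x⁻¹⁻¹) * x⁻¹ = y
    group
  apply Units.ext
  change (t.u : MonoidAlgebra ℤ t.C) = (MonoidAlgebra.mapDomainRingHom ℤ (conjHom x C₀ t.C h2))
    ((MonoidAlgebra.mapDomainRingHom ℤ (conjHom x⁻¹ t.C C₀ h1)) t.u)
  rw [← RingHom.comp_apply, ← MonoidAlgebra.mapDomainRingHom_comp, h4,
    MonoidAlgebra.mapDomainRingHom_id]
  rfl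

/-- the homomorphism `Z_G(e) → Z_G(C₀)` for `C₀` generated by `e` -/
def kap (C₀ : Subgroup G) (e : G) (he : Subgroup.zpowers e = C₀) :
    Subgroup.centralizer ({e} : Set G) →* Subgroup.centralizer (C₀ : Set G) where
  toFun γ := ⟨γ, by
    rw [Subgroup.mem_centralizer_iff]
    intro a ha
    rw [SetLike.mem_coe, ← he] at ha
    obtain ⟨i, rfl⟩ := Subgroup.mem_zpowers_iff.1 ha
    have h1 := Subgroup.mem_centralizer_iff.1 γ.2 e rfl
    exact ((show Commute e (γ : G) from h1).zpow_left i).eq⟩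
  map_one' := rfl
  map_mul' _ _ := rfl

open scoped Classical in
theorem cls_tor {p : ℕ} [hp : Fact p.Prime] {J : Type} [Fintype J] (t : J → Tr G k)
    [∀ j, Fintype (t j).C] (hprim : ∀ j, Prim (t j).C (t j).u)
    (hrel : ∀ c : G, IsOfFinOrder c → p ∣ orderOf c →
      ∀ f : HG (Subgroup.centralizer ({c} : Set G)) k →+ ℚ, (∀ y, ¬ p ∣ (f y).den) →
        ∑ j, ∑ d : (t j).C, f (trc k c (t j).C d (t j).z) • TU p (t j).u d = 0)
    (C₀ : Subgroup G) (hf : Finite C₀) (hcyc : IsCyclic C₀) (hpC : p ∣ Nat.card C₀)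
    (hsep : PSepA p (HG (Subgroup.centralizer (C₀ : Set G)) k)) :
    ∃ m : ℤ, m ≠ 0 ∧ m • ∑ j : {j // Cj (t j).C C₀}, (t j.1).val = 0 := by
  have hfin : ∀ j, Finite (t j).C := fun j => (t j).fin
  have hcom : ∀ a b : C₀, a * b = b * a := (IsCyclic.commGroup (α := C₀)).mul_comm
  let _ : ∀ j, Fintype {φ : C₀ →* (t j).C // CI C₀ (t j).C φ} := fun j => Fintype.ofFinite _
  let _ : Fintype {φ : C₀ →* C₀ // CI C₀ C₀ φ} := Fintype.ofFinite _
  let _ : Fintype C₀ := Fintype.ofFinite _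
  let _ : AddCommGroup (Additive (MonoidAlgebra ℤ C₀)ˣ) :=
    { (inferInstance : AddGroup (Additive (MonoidAlgebra ℤ C₀)ˣ)) with
      add_comm := fun a b => Units.ext (ma_comm hcom _ _) }
  -- the elements that give the conjugations
  have hx : ∀ (j : {j // Cj (t j).C C₀}) (φ : {φ : C₀ →* (t j.1).C // CI C₀ (t j.1).C φ}),
      ∃ x : G, (∀ y : C₀, (φ.1 y : G) = x * y * x⁻¹) ∧ (∀ y ∈ C₀, x * y * x⁻¹ ∈ (t j.1).C) ∧
        (∀ y ∈ (t j.1).C, x⁻¹ * y * x⁻¹⁻¹ ∈ C₀) := by
    intro j φ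
    obtain ⟨x, hx⟩ := φ.2
    have h2 : ∀ y ∈ C₀, x * y * x⁻¹ ∈ (t j.1).C := by
      intro y hy
      have h3 := hx ⟨y, hy⟩
      rw [← h3]
      exact (φ.1 ⟨y, hy⟩).2
    exact ⟨x, hx, h2, inv_mem_of_card j.2.card_eq h2⟩
  choose x hx1 hx2 hx3 using hx
  -- the elimination
  let I : Type v := Σ j : {j // Cj (t j).C C₀}, {φ : C₀ →* (t j.1).C // CI C₀ (t j.1).C φ}
  let ue : I → Additive (MonoidAlgebra ℤ C₀)ˣ := fun i =>
    Additive.ofMul (mU (conjHom (x i.1 i.2)⁻¹ (t i.1.1).C C₀ (hx3 i.1 i.2)) (t i.1.1).u)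
  let ze : I → HG (Subgroup.centralizer (C₀ : Set G)) k := fun i =>
    HG.map k (centConj (x i.1 i.2) C₀ (t i.1.1).C (hx2 i.1 i.2)) (t i.1.1).z
  have key : ∀ f : HG (Subgroup.centralizer (C₀ : Set G)) k →+ ℚ, (∀ y, ¬ p ∣ (f y).den) →
      ∑ i : I, f (ze i) • TH hcom p (ue i) = 0 := by
    intro f hfp
    funext e
    rw [Finset.sum_apply]
    -- the value of the logarithm at `e`
    have hval : ∀ i : I, (f (ze i) • TH hcom p (ue i)) e =
        f (ze i) • TU p (t i.1.1).u (i.2.1 e) := by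
      intro i
      rw [Pi.smul_apply]
      congr 1
      have h4 := TU_map (t i.1.1).comm hcom (conjHom (x i.1 i.2)⁻¹ (t i.1.1).C C₀ (hx3 i.1 i.2))
        (conjHom_injective _ _ _ _) p (t i.1.1).u (i.2.1 e)
      have h5 : conjHom (x i.1 i.2)⁻¹ (t i.1.1).C C₀ (hx3 i.1 i.2) (i.2.1 e) = e := by
        apply Subtype.ext
        change (x i.1 i.2)⁻¹ * (i.2.1 e : G) * (x i.1 i.2)⁻¹⁻¹ = e
        rw [hx1 i.1 i.2 e]
        group
      rw [h5] at h4
      exact h4
    rw [Finset.sum_congr rfl fun i _ => hval i, Pi.zero_apply, Fintype.sum_sigma]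
    by_cases he : Subgroup.zpowers (e : G) = C₀
    · -- a generator
      have hoe : orderOf (e : G) = Nat.card C₀ := by rw [← Nat.card_zpowers, he]
      have hfo : IsOfFinOrder (e : G) := by
        rw [← orderOf_pos_iff, hoe]
        exact Nat.card_pos
      have h4 := hrel e hfo (hoe ▸ hpC) (f.comp (HG.map k (kap C₀ e he))) fun y => hfp _
      -- the subgroups that are not conjugate to `C₀` do not contribute
      have h5 : ∀ j, ¬ Cj (t j).C C₀ → ∑ d : (t j).C,
          (f.comp (HG.map k (kap C₀ e he))) (trc k (e : G) (t j).C d (t j).z) •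
            TU p (t j).u d = 0 := by
        intro j hj
        refine Finset.sum_eq_zero fun d _ => ?_
        by_cases hd : IsConj (e : G) (d : G)
        · rw [hprim j p d, smul_zero]
          intro hdd
          apply hj
          obtain ⟨y, hy⟩ := isConj_iff.1 hd
          refine ⟨y⁻¹, ?_, ?_⟩
          · intro a ha
            rw [← hdd] at ha
            obtain ⟨i, rfl⟩ := Subgroup.mem_zpowers_iff.1 ha
            rw [← conj_zpow, ← hy]
            have h6 : y⁻¹ * (y * (e : G) * y⁻¹) * y⁻¹⁻¹ = e := by group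
            rw [h6]
            exact C₀.zpow_mem e.2 i
          · intro a ha
            rw [← he] at ha
            obtain ⟨i, rfl⟩ := Subgroup.mem_zpowers_iff.1 ha
            rw [inv_inv, ← conj_zpow, hy]
            exact (t j).C.zpow_mem d.2 i
        · rw [trc_of_not hd]
          simp
      have h6 := Fintype.sum_subtype_add_sum_subtype (fun j => Cj (t j).C C₀) fun j =>
        ∑ d : (t j).C, (f.comp (HG.map k (kap C₀ e he))) (trc k (e : G) (t j).C d (t j).z) •
          TU p (t j).u d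
      rw [h4, Fintype.sum_eq_zero (fun j : {j // ¬ Cj (t j).C C₀} => _) fun j => h5 j.1 j.2,
        add_zero] at h6
      rw [← h6]
      refine Finset.sum_congr rfl fun j _ => ?_
      refine Fintype.sum_of_injective
        (fun φ : {φ : C₀ →* (t j.1).C // CI C₀ (t j.1).C φ} => φ.1 e) ?_ _ _ ?_ ?_
      · -- injectivity
        intro φ ψ hφψ
        apply Subtype.ext
        ext y
        have h7 : y ∈ Subgroup.zpowers e := by
          have h8 : (y : G) ∈ Subgroup.zpowers (e : G) := by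
            rw [he]
            exact y.2
          obtain ⟨i, hi⟩ := Subgroup.mem_zpowers_iff.1 h8
          exact Subgroup.mem_zpowers_iff.2 ⟨i, Subtype.ext hi⟩
        obtain ⟨i, rfl⟩ := Subgroup.mem_zpowers_iff.1 h7
        rw [map_zpow, map_zpow]
        have h9 : φ.1 e = ψ.1 e := hφψ
        rw [h9]
      · -- the elements that are not conjugate to `e`
        intro d hd
        rw [trc_of_not]
        · simp
        · intro hde
          apply hd
          obtain ⟨y, hy⟩ := isConj_iff.1 hde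
          have h7 : ∀ a ∈ C₀, y * a * y⁻¹ ∈ (t j.1).C := by
            intro a ha
            rw [← he] at ha
            obtain ⟨i, rfl⟩ := Subgroup.mem_zpowers_iff.1 ha
            rw [← conj_zpow, hy]
            exact (t j.1).C.zpow_mem d.2 i
          exact ⟨⟨conjHom y C₀ (t j.1).C h7, y, fun _ => rfl⟩, Subtype.ext hy⟩
      · -- the values
        intro φ
        congr 1
        change f (ze ⟨j, φ⟩) = f (HG.map k (kap C₀ e he) _)
        congr 1
        rw [trc_eq (x j φ) (hx1 j φ e).symm (by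
          rw [← hx1 j φ e]
          exact (φ.1 e).2), HG.map_map]
        rfl
    · -- not a generator
      refine Finset.sum_eq_zero fun j _ => Finset.sum_eq_zero fun φ _ => ?_
      rw [hprim j.1 p (φ.1 e), smul_zero]
      intro h4
      apply he
      apply zpowers_eq_of_card e.2
      rw [← j.2.card_eq, ← h4, Nat.card_zpowers, hx1 j φ e, orderOf_conj']
  let β : Additive (MonoidAlgebra ℤ C₀)ˣ →+ HG (Subgroup.centralizer (C₀ : Set G)) k →+
    HnK1 ℤ G k := (syB1 (k := ℤ) (n := k) ⟨C₀, hf⟩).comp (uH (MonoidAlgebra ℤ C₀))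
  let T : Additive (MonoidAlgebra ℤ C₀)ˣ →+ (C₀ → Ap p) := TH hcom p
  obtain ⟨m, hm, h⟩ := elim_sep (V := C₀ → Ap p) β T (fun u hu => by
      obtain ⟨m, hm, h⟩ := TU_detect hcom p u.toMul fun d => congrFun hu d
      exact ⟨m, by exact_mod_cast hm.ne', by
        rw [natCast_zsmul]
        exact h⟩) hsep ue ze key
  refine ⟨m * (Nat.card {φ : C₀ →* C₀ // CI C₀ C₀ φ} : ℤ), mul_ne_zero hm ?_, ?_⟩
  · have : Nonempty {φ : C₀ →* C₀ // CI C₀ C₀ φ} := ⟨⟨MonoidHom.id _, 1, fun y => by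
      rw [one_mul, inv_one, mul_one]
      rfl⟩⟩
    exact_mod_cast Nat.card_pos.ne'
  · rw [mul_smul, ← h, natCast_zsmul, Finset.smul_sum]
    congr 1
    rw [Fintype.sum_sigma]
    refine Finset.sum_congr rfl fun j _ => ?_
    rw [← card_CI j.2, Nat.card_eq_fintype_card, ← Finset.card_univ, ← Finset.sum_const]
    refine Finset.sum_congr rfl fun φ _ => ?_
    exact val_eq (t j.1) hf (x j φ) (hx2 j φ) (hx3 j φ)

end Cls

end Pool.Agent.H8.KL
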