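import Pool.Agent.H8.KL.Prim

/-!
# Project KL, module PrimS: primitive symbols with abstract coefficients

`CoefS G` : an abstract group `E` generated by symbols `[F, x, z]`, `F ≤ G` finite, `x ∈ K₁(ℤ[F])`, `z ∈ M F`, with a
contravariant system `M` of coefficients, and the transports `trc` to groups `N c` attached to the elements of `G`.
The theorems are those of `Prim` for `E` in place of `HnK1 ℤ G k`.
-/

set_option autoImplicit false

open Matrix

universe u v w w' w''

namespace Pool.Agent.H8.KL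

open Pool.Agent.H95.WH (K1 K1.mk K1.map K1.unit K1.map_unit K1.unit_mul FamSub conjHom FinSub uH
  unit_pow exists_unit artin_K1 ind)

/-- A system of coefficients for symbols. -/
structure CoefS (G : Type v) [Group G] where
  /-- the coefficients -/
  M : Subgroup G → Type w
  [instM : ∀ C, AddCommGroup (M C)]
  /-- the transport -/
  tr : ∀ (g : G) (F F' : Subgroup G), (∀ x ∈ F, g * x * g⁻¹ ∈ F') → (M F' →+ M F)
  /-- the coefficients attached to an element -/
  N : G → Type w'
  [instN : ∀ c, AddCommGroup (N c)]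
  /-- the transport to an element -/
  trc : ∀ (c : G) (C : Subgroup G) (_ : C), M C →+ N c
  /-- the comparison -/
  kap : ∀ (C₀ : Subgroup G) (e : G), Subgroup.zpowers e = C₀ → (N e →+ M C₀)
  trc_of_not : ∀ {c : G} {C : Subgroup G} {d : C}, ¬ IsConj c (d : G) → trc c C d = 0
  kap_trc : ∀ (C₀ : Subgroup G) (e : G) (he : Subgroup.zpowers e = C₀) (C : Subgroup G) (x : G)
    (h2 : ∀ y ∈ C₀, x * y * x⁻¹ ∈ C) (d : C), x * e * x⁻¹ = d → ∀ z : M C,
      kap C₀ e he (trc e C d z) = tr x C₀ C h2 z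
  /-- the group of symbols -/
  E : Type w''
  [instE : AddCommGroup E]
  /-- the symbols -/
  sy : ∀ F : FamSub G FinSub, K1 (MonoidAlgebra ℤ F.1) →+ M F.1 →+ E
  sy_conj : ∀ (F F' : FamSub G FinSub) (g : G) (h : ∀ x ∈ F.1, g * x * g⁻¹ ∈ F'.1)
    (x : K1 (MonoidAlgebra ℤ F.1)) (z : M F'.1),
    sy F' (K1.map (MonoidAlgebra.mapDomainRingHom ℤ (conjHom g F.1 F'.1 h)) x) z =
      sy F x (tr g F.1 F'.1 h z)
  gen : AddSubgroup.closure {e : E | ∃ F x z, e = sy F x z} = ⊤

attribute [instance] CoefS.instM CoefS.instN CoefS.instE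

section TrS

/-- a symbol `[C, v, z]` with `C` finite cyclic and `v` a unit of `ℤ[C]` -/
structure TrS {G : Type v} [Group G] (S : CoefS G) where
  /-- the subgroup -/
  C : Subgroup G
  fin : Finite C
  cyc : IsCyclic C
  /-- the unit -/
  u : (MonoidAlgebra ℤ C)ˣ
  /-- the homology class -/
  z : S.M C

variable {G : Type v} [Group G] {S : CoefS G}

/-- the value of a symbol -/
noncomputable def TrS.val (t : TrS S) : S.E := S.sy ⟨t.C, t.fin⟩ (K1.unit t.u) t.z

theorem TrS.comm (t : TrS S) (a b : t.C) : a * b = b * a := by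
  have := t.cyc
  exact (IsCyclic.commGroup (α := t.C)).mul_comm a b

/-- the subgroup generated by the primitive symbols -/
noncomputable def PSS (S : CoefS G) : AddSubgroup S.E :=
  AddSubgroup.closure {x | ∃ t : TrS S, Prim t.C t.u ∧ x = t.val}

/-- the elements with a multiple in `PS` -/
def MPS (x : S.E) : Prop := ∃ m : ℕ, 0 < m ∧ m • x ∈ PSS S

theorem MPS.zero : MPS (0 : S.E) := ⟨1, one_pos, by rw [smul_zero]; exact zero_mem _⟩

theorem MPS.add {x y : S.E} (hx : MPS x) (hy : MPS y) : MPS (x + y) := by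
  obtain ⟨m, hm, h⟩ := hx
  obtain ⟨n, hn, h'⟩ := hy
  refine ⟨m * n, Nat.mul_pos hm hn, ?_⟩
  rw [smul_add]
  refine add_mem ?_ ?_
  · rw [mul_comm, mul_smul]
    exact AddSubgroup.nsmul_mem _ h n
  · rw [mul_smul]
    exact AddSubgroup.nsmul_mem _ h' m

theorem MPS.neg {x : S.E} (hx : MPS x) : MPS (-x) := by
  obtain ⟨m, hm, h⟩ := hx
  exact ⟨m, hm, by rw [smul_neg]; exact neg_mem h⟩

theorem MPS.of_smul {x : S.E} {m : ℕ} (hm : 0 < m) (h : MPS (m • x)) : MPS x := by
  obtain ⟨n, hn, h'⟩ := h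
  exact ⟨n * m, Nat.mul_pos hn hm, by rw [mul_smul]; exact h'⟩

theorem MPS.sum {ι : Type*} (s : Finset ι) (f : ι → S.E) (h : ∀ i ∈ s, MPS (f i)) :
    MPS (∑ i ∈ s, f i) := by
  classical
  induction s using Finset.induction_on with
  | empty => rw [Finset.sum_empty]; exact MPS.zero
  | insert i s hi ih =>
    rw [Finset.sum_insert hi]
    exact (h i (Finset.mem_insert_self i s)).add
      (ih fun j hj => h j (Finset.mem_insert_of_mem hj))

/-- the symbol of an element from a subgroup -/
theorem syS_iK {D C : Subgroup G} (h : D ≤ C) (hD : FinSub D) (hC : FinSub C)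
    (x : K1 (MonoidAlgebra ℤ D)) (z : S.M C) :
    ∃ z', S.sy ⟨C, hC⟩ (iK h x) z = S.sy ⟨D, hD⟩ x z' := by
  have hc : ∀ x ∈ D, (1 : G) * x * 1⁻¹ ∈ C := by
    intro x hx
    rw [one_mul, inv_one, mul_one]
    exact h hx
  have h1 := S.sy_conj ⟨D, hD⟩ ⟨C, hC⟩ 1 hc x z
  have h2 : conjHom (1 : G) D C hc = Subgroup.inclusion h := by
    ext y
    change 1 * (y : G) * 1⁻¹ = y
    group
  rw [h2] at h1
  exact ⟨_, h1⟩

theorem MPS_unit : ∀ (n : ℕ) (t : TrS S), Nat.card t.C ≤ n → MPS t.val := by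
  intro n
  induction n with
  | zero =>
    intro t ht
    have := t.fin
    have h1 : 0 < Nat.card t.C := Nat.card_pos
    omega
  | succ n ih =>
    intro t ht
    have := t.fin
    have hcyc := t.cyc
    obtain ⟨m, r, D, hD, v, w, hm, h1, h2⟩ := low_prim t.C t.comm t.u
    apply MPS.of_smul hm
    have e1 : m • t.val = S.sy ⟨t.C, t.fin⟩ (m • K1.unit t.u) t.z := by
      rw [map_nsmul, AddMonoidHom.coe_smul, Pi.smul_apply]
      rfl
    rw [e1, h1, map_add, map_sum, AddMonoidHom.add_apply, AddMonoidHom.finsetSum_apply]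
    refine MPS.add ?_ (MPS.sum _ _ fun a _ => ?_)
    · refine ⟨1, one_pos, ?_⟩
      rw [one_smul]
      exact AddSubgroup.subset_closure ⟨⟨t.C, t.fin, t.cyc, w, t.z⟩, h2, rfl⟩
    · have hf : Finite (D a) := Finite.of_injective _ (Subgroup.inclusion_injective (hD a).le)
      have hc : IsCyclic (D a) := isCyclic_of_injective _ (Subgroup.inclusion_injective (hD a).le)
      obtain ⟨z', hz'⟩ := syS_iK (hD a).le hf t.fin (K1.unit (v a)) t.z
      rw [hz']
      refine ih ⟨D a, hf, hc, v a, z'⟩ ?_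
      have h3 : Nat.card (D a) < Nat.card t.C := by
        by_contra hcon
        have h4 := Subgroup.eq_of_le_of_card_ge (hD a).le (not_lt.1 hcon)
        exact (hD a).ne h4
      change Nat.card (D a) ≤ n
      omega

/-- symbols of elements induced from subgroups of a finite subgroup -/
theorem syS_ind (F : FamSub G FinSub) (D : Subgroup F.1) (y : K1 (MonoidAlgebra ℤ D))
    (hfin : FinSub (D.map F.1.subtype)) (z : S.M F.1) :
    ∃ z', S.sy F (ind D.subtype y) z = S.sy ⟨D.map F.1.subtype, hfin⟩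
      (K1.map (MonoidAlgebra.mapDomainRingHom ℤ
        (D.equivMapOfInjective F.1.subtype F.1.subtype_injective).toMonoidHom) y) z' := by
  have h : D.map F.1.subtype ≤ F.1 := by
    rintro _ ⟨x, _, rfl⟩
    exact x.2
  obtain ⟨z', hz'⟩ := syS_iK (S := S) h hfin F.2 (K1.map (MonoidAlgebra.mapDomainRingHom ℤ
        (D.equivMapOfInjective F.1.subtype F.1.subtype_injective).toMonoidHom) y) z
  refine ⟨z', ?_⟩
  rw [← hz', iK, K1.map_map, ← MonoidAlgebra.mapDomainRingHom_comp]
  rfl

theorem MPS_sy (F : FamSub G FinSub) (x : K1 (MonoidAlgebra ℤ F.1)) (z : S.M F.1) :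
    MPS (S.sy F x z) := by
  have : Finite F.1 := F.2
  obtain ⟨m, r, D, y, hm, hcyc, h⟩ := artin_K1 F.1 x
  apply MPS.of_smul hm
  have e1 : m • S.sy F x z = S.sy F (m • x) z := by
    rw [map_nsmul, AddMonoidHom.coe_smul, Pi.smul_apply]
  rw [e1, h, map_sum, AddMonoidHom.finsetSum_apply]
  refine MPS.sum _ _ fun i _ => ?_
  have hfin : Finite ((D i).map F.1.subtype) :=
    Finite.of_equiv _ ((D i).equivMapOfInjective F.1.subtype F.1.subtype_injective).toEquiv
  have hcyc' : IsCyclic ((D i).map F.1.subtype) := by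
    have := hcyc i
    exact isCyclic_of_surjective
      ((D i).equivMapOfInjective F.1.subtype F.1.subtype_injective)
      ((D i).equivMapOfInjective F.1.subtype F.1.subtype_injective).surjective
  obtain ⟨z', hz'⟩ := syS_ind F (D i) (y i) hfin z
  rw [hz']
  obtain ⟨m', u, hm', h'⟩ := exists_unit (C := (D i).map F.1.subtype)
    (fun a b => (IsCyclic.commGroup (α := (D i).map F.1.subtype)).mul_comm a b)
    (K1.map (MonoidAlgebra.mapDomainRingHom ℤ
      ((D i).equivMapOfInjective F.1.subtype F.1.subtype_injective).toMonoidHom) (y i))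
  apply MPS.of_smul hm'
  rw [← AddMonoidHom.smul_apply, ← map_nsmul, h']
  exact MPS_unit _ ⟨(D i).map F.1.subtype, hfin, hcyc', u, z'⟩ le_rfl

/-- **A multiple of every element is a sum of primitive symbols.** -/
theorem MPS_all (x : S.E) : MPS x := by
  have hx : x ∈ AddSubgroup.closure {e : S.E | ∃ F x z, e = S.sy F x z} := by
    rw [S.gen]
    exact AddSubgroup.mem_top x
  induction hx using AddSubgroup.closure_induction with
  | mem x hx =>
    obtain ⟨F, x, z, rfl⟩ := hx
    exact MPS_sy F x z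
  | zero => exact MPS.zero
  | add x y _ _ hx hy => exact hx.add hy
  | neg x _ hx => exact hx.neg

theorem TrS.neg_val (t : TrS S) :
    -t.val = (⟨t.C, t.fin, t.cyc, t.u, -t.z⟩ : TrS S).val := by
  have h1 : t.val = S.sy ⟨t.C, t.fin⟩ (K1.unit t.u) t.z := rfl
  have h2 : (⟨t.C, t.fin, t.cyc, t.u, -t.z⟩ : TrS S).val =
      S.sy ⟨t.C, t.fin⟩ (K1.unit t.u) (-t.z) := rfl
  rw [h1, h2, map_neg]

theorem exists_listS {x : S.E} (hx : x ∈ PSS S) :
    ∃ l : List (TrS S), (∀ t ∈ l, Prim t.C t.u) ∧ x = (l.map TrS.val).sum := by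
  induction hx using AddSubgroup.closure_induction with
  | mem x hx =>
    obtain ⟨t, ht, rfl⟩ := hx
    exact ⟨[t], by simpa using ht, by simp⟩
  | zero => exact ⟨[], by simp, by simp⟩
  | add x y _ _ hx hy =>
    obtain ⟨l, h1, h2⟩ := hx
    obtain ⟨l', h1', h2'⟩ := hy
    refine ⟨l ++ l', ?_, ?_⟩
    · intro t ht
      rcases List.mem_append.1 ht with h | h
      · exact h1 t h
      · exact h1' t h
    · rw [List.map_append, List.sum_append, h2, h2']
  | neg x _ hx =>
    obtain ⟨l, h1, h2⟩ := hx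
    refine ⟨l.map fun t => ⟨t.C, t.fin, t.cyc, t.u, -t.z⟩, ?_, ?_⟩
    · intro t ht
      obtain ⟨t', ht', rfl⟩ := List.mem_map.1 ht
      exact h1 t' ht'
    · rw [h2, List.map_map]
      clear h1 h2
      induction l with
      | nil => simp
      | cons t l ih =>
        rw [List.map_cons, List.map_cons, List.sum_cons, List.sum_cons, neg_add, ih,
          TrS.neg_val]
        rfl

/-- **A multiple of every element is a finite sum of primitive symbols.** -/
theorem exists_primS (x : S.E) :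
    ∃ (m n : ℕ) (t : Fin n → TrS S), 0 < m ∧ (∀ i, Prim (t i).C (t i).u) ∧
      m • x = ∑ i, (t i).val := by
  obtain ⟨m, hm, h⟩ := MPS_all x
  obtain ⟨l, h1, h2⟩ := exists_listS h
  refine ⟨m, l.length, fun i => l.get i, hm, fun i => h1 _ (List.get_mem l i), ?_⟩
  rw [h2]
  clear h h1 h2
  induction l with
  | nil => simp
  | cons t l ih =>
    rw [List.map_cons, List.sum_cons, ih]
    exact (Fin.sum_univ_succ (n := l.length) fun i => ((t :: l).get i).val).symm

end TrS

end Pool.Agent.H8.KL
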