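import Pool.Agent.H8.KL.Ap
import Pool.Agent.H95.WH.ArtKR
import Pool.Agent.H95.WH.NormG

/-!
# Project KL, module Un: the `p`-adic logarithm of the units of `ℤ[C]`

`lgU p φ u` : `lg p φ (u ^ m) / m` for any `m > 0` with `u ^ m = 1` modulo `p ^ 2`.
`TU p u d` : `lgU` for the coefficient at `d`, `u` a unit of `ℤ[C]`, `C` finite.

* `TU_mul`, `TU_one`, `TU_map`, `TU_map_ne`;
* `TU_detect` : a unit with `TU p u = 0` has finite order;
* `TU_norm` : for `j : D → C` injective there is a unit `z` of `ℤ[D]` with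
  `TU p z d = [C : D] TU p u (j d)` for all `p`.
-/

set_option autoImplicit false

open Matrix

universe u v w

namespace Pool.Agent.H8.KL

open Pool.Agent.H95.WH (K1 PowMod powMod_of_finite)

section LgU

variable (p : ℕ) [hp : Fact p.Prime] {R : Type u} [Ring R] {S : Type v} [Ring S]

/-- every unit has a power that is `1` modulo `p ^ 2` -/
def FinP (R : Type u) [Ring R] : Prop := ∀ u : Rˣ, ∃ m : ℕ, 0 < m ∧ One2 p ((u ^ m : Rˣ) : R)

open scoped Classical in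
/-- the logarithm of a unit -/
noncomputable def lgU (φ : R →+ ℤ) (u : Rˣ) : Ap p :=
  if h : ∃ m : ℕ, 0 < m ∧ One2 p ((u ^ m : Rˣ) : R) then
    ((h.choose : ℕ) : ℚ)⁻¹ • lg p φ ((u ^ h.choose : Rˣ) : R) else 0

theorem lgU_eq (hR : ∀ x y : R, x * y = y * x) (φ : R →+ ℤ) {u : Rˣ} {m : ℕ} (hm : 0 < m)
    (h : One2 p ((u ^ m : Rˣ) : R)) : lgU p φ u = (m : ℚ)⁻¹ • lg p φ ((u ^ m : Rˣ) : R) := by
  have hex : ∃ m : ℕ, 0 < m ∧ One2 p ((u ^ m : Rˣ) : R) := ⟨m, hm, h⟩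
  unfold lgU
  rw [dif_pos hex]
  obtain ⟨h1, h2⟩ := hex.choose_spec
  generalize hex.choose = n at h1 h2
  have hn0 : (n : ℚ) ≠ 0 := Nat.cast_ne_zero.2 h1.ne'
  have hm0 : (m : ℚ) ≠ 0 := Nat.cast_ne_zero.2 hm.ne'
  have h3 := lg_pow p hR φ h2 m
  have h4 := lg_pow p hR φ h n
  rw [← Units.val_pow_eq_pow_val, ← pow_mul] at h3 h4
  rw [mul_comm m n, h3] at h4
  rw [inv_smul_eq_iff₀ hn0, smul_comm, eq_inv_smul_iff₀ hm0, Nat.cast_smul_eq_nsmul,
    Nat.cast_smul_eq_nsmul, h4]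

theorem lgU_one (hR : ∀ x y : R, x * y = y * x) (φ : R →+ ℤ) : lgU p φ (1 : Rˣ) = 0 := by
  rw [lgU_eq p hR φ (m := 1) one_pos (by rw [one_pow]; exact One2.one p), one_pow, Units.val_one,
    lg_one, smul_zero]

theorem lgU_mul (hR : ∀ x y : R, x * y = y * x) (hF : FinP p R) (φ : R →+ ℤ) (u v : Rˣ) :
    lgU p φ (u * v) = lgU p φ u + lgU p φ v := by
  obtain ⟨m, hm, h⟩ := hF u
  obtain ⟨n, hn, h'⟩ := hF v
  have hmn : 0 < m * n := Nat.mul_pos hm hn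
  have h1 : One2 p ((u ^ (m * n) : Rˣ) : R) := by
    rw [pow_mul, Units.val_pow_eq_pow_val]
    exact h.pow p n
  have h2 : One2 p ((v ^ (m * n) : Rˣ) : R) := by
    rw [mul_comm, pow_mul, Units.val_pow_eq_pow_val]
    exact h'.pow p m
  have h3 : (u * v) ^ (m * n) = u ^ (m * n) * v ^ (m * n) :=
    (show Commute u v from Units.ext (hR _ _)).mul_pow _
  have h4 : One2 p (((u * v) ^ (m * n) : Rˣ) : R) := by
    rw [h3, Units.val_mul]
    exact h1.mul p h2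
  rw [lgU_eq p hR φ hmn h4, lgU_eq p hR φ hmn h1, lgU_eq p hR φ hmn h2, h3, Units.val_mul,
    lg_mul p φ h1 h2 (hR _ _), smul_add]

theorem lgU_comp (hR : ∀ x y : R, x * y = y * x) (hS : ∀ x y : S, x * y = y * x)
    (hF : FinP p R) (f : R →+* S) (φ : S →+ ℤ) (u : Rˣ) :
    lgU p φ (Units.map f.toMonoidHom u) = lgU p (φ.comp f.toAddMonoidHom) u := by
  obtain ⟨m, hm, h⟩ := hF u
  have h1 : (((Units.map f.toMonoidHom u) ^ m : Sˣ) : S) = f ((u ^ m : Rˣ) : R) := by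
    rw [← map_pow]
    rfl
  have h2 : One2 p (((Units.map f.toMonoidHom u) ^ m : Sˣ) : S) := by
    rw [h1]
    exact h.map p f
  rw [lgU_eq p hS φ hm h2, lgU_eq p hR _ hm h, h1, lg_comp]

theorem lgU_zero (hR : ∀ x y : R, x * y = y * x) (hF : FinP p R) (u : Rˣ) :
    lgU p (0 : R →+ ℤ) u = 0 := by
  obtain ⟨m, hm, h⟩ := hF u
  rw [lgU_eq p hR _ hm h]
  have h1 : lg p (0 : R →+ ℤ) ((u ^ m : Rˣ) : R) = 0 := by
    unfold lg
    rw [cA_eq_zero]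
    refine ⟨0, fun l => ?_⟩
    change (p : ℚ) ^ 0 * (((0 : ℤ) : ℚ) / (p : ℚ) ^ l) / (p : ℚ) ^ l ∈ ZP p
    rw [Int.cast_zero, zero_div, mul_zero, zero_div]
    exact (ZP p).zero_mem
  rw [h1, smul_zero]

/-- comparison for the norm -/
theorem lgU_norm (hR : ∀ x y : R, x * y = y * x) (hS : ∀ x y : S, x * y = y * x)
    (hF : FinP p R) (φ : R →+ ℤ) (ψ : S →+ ℤ) (τ : R →+ S) (n : ℕ)
    (hτ : ∀ a, ψ (τ a) = n * φ a) (u : Rˣ) (z : Sˣ)
    (hz : ∀ (e N : ℕ) (f : R), (N : R) * f = (u : R) ^ e - 1 →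
      ∃ w : S, (N : S) * (τ f + (N : S) * w) = (z : S) ^ e - 1) :
    lgU p ψ z = n • lgU p φ u := by
  obtain ⟨m, hm, h⟩ := hF u
  have hm0 : (m : ℚ) ≠ 0 := Nat.cast_ne_zero.2 hm.ne'
  have key : ∀ l, ∃ (f : R) (w : S), (u : R) ^ (m * p ^ l) - 1 = (p : R) ^ (2 + l) * f ∧
      (z : S) ^ (m * p ^ l) - 1 = (p : S) ^ (2 + l) * (τ f + (p : S) ^ (2 + l) * w) := by
    intro l
    obtain ⟨f, hf⟩ := h.pow_eq p l
    rw [Units.val_pow_eq_pow_val, ← pow_mul] at hf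
    have h1 : ((p ^ (2 + l) : ℕ) : R) * f = (u : R) ^ (m * p ^ l) - 1 := by
      rw [hf]
      push_cast
      abel
    obtain ⟨w, hw⟩ := hz (m * p ^ l) (p ^ (2 + l)) f h1
    push_cast at h1 hw
    exact ⟨f, w, h1.symm, hw.symm⟩
  have hz1 : One2 p ((z ^ m : Sˣ) : S) := by
    obtain ⟨f, w, h1, h2⟩ := key 0
    rw [pow_zero, mul_one, add_zero] at h2
    refine ⟨τ f + (p : S) ^ 2 * w, ?_⟩
    rw [← h2, Units.val_pow_eq_pow_val]
    abel
  rw [lgU_eq p hS ψ hm hz1, lgU_eq p hR φ hm h, smul_comm]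
  congr 1
  unfold lg
  rw [← map_nsmul, ← sub_eq_zero, ← map_sub, cA_eq_zero]
  refine ⟨0, fun l => ?_⟩
  change (p : ℚ) ^ 0 * (((ψ (((z ^ m : Sˣ) : S) ^ p ^ l - 1) : ℤ) : ℚ) / (p : ℚ) ^ l -
    n • (((φ (((u ^ m : Rˣ) : R) ^ p ^ l - 1) : ℤ) : ℚ) / (p : ℚ) ^ l)) / (p : ℚ) ^ l ∈ ZP p
  obtain ⟨f, w, h1, h2⟩ := key l
  have e1 : ((u ^ m : Rˣ) : R) ^ p ^ l - 1 = (p : R) ^ (2 + l) * f := by
    rw [Units.val_pow_eq_pow_val, ← pow_mul, h1]
  have e2 : ((z ^ m : Sˣ) : S) ^ p ^ l - 1 = (p : S) ^ (2 + l) * (τ f + (p : S) ^ (2 + l) * w) := by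
    rw [Units.val_pow_eq_pow_val, ← pow_mul, h2]
  have hφ : ∀ (e : ℕ) (x : R), φ ((p : R) ^ e * x) = (p : ℤ) ^ e * φ x := by
    intro e x
    rw [← Nat.cast_pow, ← nsmul_eq_mul, map_nsmul, nsmul_eq_mul, Nat.cast_pow]
  have hψ : ∀ (e : ℕ) (x : S), ψ ((p : S) ^ e * x) = (p : ℤ) ^ e * ψ x := by
    intro e x
    rw [← Nat.cast_pow, ← nsmul_eq_mul, map_nsmul, nsmul_eq_mul, Nat.cast_pow]
  rw [e1, e2, hφ, hψ, map_add, hψ, hτ]
  have hp0 : (p : ℚ) ≠ 0 := Nat.cast_ne_zero.2 hp.out.ne_zero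
  have h7 : (p : ℚ) ^ 0 * ((((p : ℤ) ^ (2 + l) * ((n : ℤ) * φ f + (p : ℤ) ^ (2 + l) * ψ w) : ℤ) : ℚ) /
      (p : ℚ) ^ l - n • ((((p : ℤ) ^ (2 + l) * φ f : ℤ) : ℚ) / (p : ℚ) ^ l)) / (p : ℚ) ^ l =
      (((p : ℤ) ^ 4 * ψ w : ℤ) : ℚ) := by
    rw [nsmul_eq_mul]
    push_cast
    have h8 : (p : ℚ) ^ (2 + l) = (p : ℚ) ^ 2 * (p : ℚ) ^ l := by rw [pow_add]
    rw [h8]
    field_simp
    ring
  rw [h7]
  exact int_mem_ZP _

end LgU

section MA

set_option linter.unusedSectionVars false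

variable {C : Type u} [Group C]

theorem ma_comm (hC : ∀ a b : C, a * b = b * a) (x y : MonoidAlgebra ℤ C) : x * y = y * x := by
  induction x using MonoidAlgebra.induction_linear with
  | zero => rw [zero_mul, mul_zero]
  | add a b ha hb => rw [add_mul, mul_add, ha, hb]
  | single s t =>
    induction y using MonoidAlgebra.induction_linear with
    | zero => rw [zero_mul, mul_zero]
    | add a b ha hb => rw [add_mul, mul_add, ha, hb]
    | single s' t' =>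
      rw [MonoidAlgebra.single_mul_single, MonoidAlgebra.single_mul_single, hC, mul_comm t]

/-- the coefficient at `d` -/
def cf (d : C) : MonoidAlgebra ℤ C →+ ℤ where
  toFun x := x.coeff d
  map_zero' := rfl
  map_add' _ _ := rfl

theorem cf_apply (d : C) (x : MonoidAlgebra ℤ C) : cf d x = x.coeff d := rfl

private theorem un_coeff_mul (n : ℕ) (x : MonoidAlgebra ℤ C) (g : C) :
    ((n : MonoidAlgebra ℤ C) * x).coeff g = (n : ℤ) * x.coeff g := by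
  rw [← nsmul_eq_mul, MonoidAlgebra.coeff_smul_apply, nsmul_eq_mul]

theorem ma_dvd {n : ℕ} {x : MonoidAlgebra ℤ C}
    (h : ∀ g : C, (n : ℤ) ∣ x.coeff g) : ∃ y, x = (n : MonoidAlgebra ℤ C) * y := by
  refine ⟨MonoidAlgebra.ofCoeff (x.coeff.mapRange (fun c => c / (n : ℤ)) (by simp)), ?_⟩
  apply MonoidAlgebra.coeff_injective
  ext g
  rw [un_coeff_mul]
  change _ = (n : ℤ) * (x.coeff.mapRange (fun c => c / (n : ℤ)) (by simp)) g
  rw [Finsupp.mapRange_apply, Int.mul_ediv_cancel' (h g)]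

theorem exists_pow_eq [Finite C] {n : ℕ} (hn : n ≠ 0) (u : (MonoidAlgebra ℤ C)ˣ) :
    ∃ (m : ℕ) (a : MonoidAlgebra ℤ C), 0 < m ∧
      ((u ^ m : (MonoidAlgebra ℤ C)ˣ) : MonoidAlgebra ℤ C) = 1 + (n : MonoidAlgebra ℤ C) * a := by
  have h : ∀ n : ℕ, n ≠ 0 → Finite (ℤ ⧸ Ideal.span {(n : ℤ)}) := by
    intro n hn
    have : NeZero n := ⟨hn⟩
    exact Finite.of_equiv _ (Int.quotientSpanNatEquivZMod n).symm.toEquiv
  obtain ⟨m, Z, hm, hZ⟩ := powMod_of_finite ℤ C h n hn 1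
    (Units.map (Matrix.scalar (Fin 1)).toMonoidHom u)
  refine ⟨m, Z 0 0, hm, ?_⟩
  rw [← map_pow] at hZ
  have h1 := congrFun (congrFun hZ 0) 0
  have h2 : ((Units.map (Matrix.scalar (Fin 1)).toMonoidHom (u ^ m) :
      (Matrix (Fin 1) (Fin 1) (MonoidAlgebra ℤ C))ˣ) :
      Matrix (Fin 1) (Fin 1) (MonoidAlgebra ℤ C)) 0 0 =
      ((u ^ m : (MonoidAlgebra ℤ C)ˣ) : MonoidAlgebra ℤ C) := by
    change Matrix.scalar (Fin 1) ((u ^ m : (MonoidAlgebra ℤ C)ˣ) : MonoidAlgebra ℤ C) 0 0 = _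
    rw [Matrix.scalar_apply, Matrix.diagonal_apply_eq]
  rw [h2, Matrix.add_apply, Matrix.one_apply_eq, Matrix.smul_apply, natCast_zsmul,
    nsmul_eq_mul] at h1
  exact h1

theorem finP [Finite C] (p : ℕ) [hp : Fact p.Prime] : FinP p (MonoidAlgebra ℤ C) := by
  intro u
  obtain ⟨m, a, hm, h⟩ := exists_pow_eq (n := p ^ 2) (pow_ne_zero 2 hp.out.ne_zero) u
  refine ⟨m, hm, a, ?_⟩
  rw [h]
  push_cast
  rfl

/-- the logarithm of a unit of `ℤ[C]` at `d` -/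
noncomputable def TU (p : ℕ) [Fact p.Prime] (u : (MonoidAlgebra ℤ C)ˣ) (d : C) : Ap p :=
  lgU p (cf d) u

variable [Finite C]

theorem TU_one (hC : ∀ a b : C, a * b = b * a) (p : ℕ) [Fact p.Prime] (d : C) :
    TU p (1 : (MonoidAlgebra ℤ C)ˣ) d = 0 := lgU_one p (ma_comm hC) _

theorem TU_mul (hC : ∀ a b : C, a * b = b * a) (p : ℕ) [Fact p.Prime]
    (u v : (MonoidAlgebra ℤ C)ˣ) (d : C) : TU p (u * v) d = TU p u d + TU p v d :=
  lgU_mul p (ma_comm hC) (finP p) _ u v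

theorem TU_pow (hC : ∀ a b : C, a * b = b * a) (p : ℕ) [Fact p.Prime]
    (u : (MonoidAlgebra ℤ C)ˣ) (d : C) (n : ℕ) : TU p (u ^ n) d = n • TU p u d := by
  induction n with
  | zero => rw [pow_zero, TU_one hC, zero_smul]
  | succ n ih => rw [pow_succ, TU_mul hC, ih, succ_nsmul]

theorem TU_inv (hC : ∀ a b : C, a * b = b * a) (p : ℕ) [Fact p.Prime]
    (u : (MonoidAlgebra ℤ C)ˣ) (d : C) : TU p u⁻¹ d = - TU p u d := by
  have h := TU_mul hC p u⁻¹ u d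
  rw [inv_mul_cancel, TU_one hC] at h
  exact (neg_eq_of_add_eq_zero_left h.symm).symm

/-- the logarithm as a homomorphism -/
noncomputable def TH (hC : ∀ a b : C, a * b = b * a) (p : ℕ) [Fact p.Prime] :
    Additive (MonoidAlgebra ℤ C)ˣ →+ (C → Ap p) where
  toFun u d := TU p u.toMul d
  map_zero' := by
    funext d
    exact TU_one hC p d
  map_add' u v := by
    funext d
    exact TU_mul hC p _ _ d

theorem TH_apply (hC : ∀ a b : C, a * b = b * a) (p : ℕ) [Fact p.Prime]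
    (u : (MonoidAlgebra ℤ C)ˣ) (d : C) : TH hC p (Additive.ofMul u) d = TU p u d := rfl

/-- the map of units induced by a homomorphism of groups -/
noncomputable def mU {C' : Type v} [Group C'] (j : C →* C') :
    (MonoidAlgebra ℤ C)ˣ →* (MonoidAlgebra ℤ C')ˣ :=
  Units.map (MonoidAlgebra.mapDomainRingHom ℤ j).toMonoidHom

theorem TU_map {C' : Type v} [Group C'] (hC : ∀ a b : C, a * b = b * a)
    (hC' : ∀ a b : C', a * b = b * a) (j : C →* C') (hj : Function.Injective j) (p : ℕ)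
    [Fact p.Prime] (u : (MonoidAlgebra ℤ C)ˣ) (d : C) : TU p (mU j u) (j d) = TU p u d := by
  refine (lgU_comp p (ma_comm hC) (ma_comm hC') (finP p) _ _ u).trans ?_
  change lgU p _ u = lgU p _ u
  congr 1
  refine AddMonoidHom.ext fun x => ?_
  change (MonoidAlgebra.mapDomain j x).coeff (j d) = x.coeff d
  rw [MonoidAlgebra.coeff_mapDomain, Finsupp.mapDomain_apply hj]

theorem TU_map_ne {C' : Type v} [Group C'] (hC : ∀ a b : C, a * b = b * a)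
    (hC' : ∀ a b : C', a * b = b * a) (j : C →* C') (p : ℕ)
    [Fact p.Prime] (u : (MonoidAlgebra ℤ C)ˣ) (d : C') (hd : ∀ c, j c ≠ d) :
    TU p (mU j u) d = 0 := by
  refine (lgU_comp p (ma_comm hC) (ma_comm hC') (finP p) _ _ u).trans ?_
  have h : (cf d).comp (MonoidAlgebra.mapDomainRingHom ℤ j).toAddMonoidHom = 0 := by
    refine AddMonoidHom.ext fun x => ?_
    change (MonoidAlgebra.mapDomain j x).coeff d = 0
    rw [MonoidAlgebra.coeff_mapDomain]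
    apply Finsupp.mapDomain_of_notMem_range
    rintro ⟨c, hc⟩
    exact hd c hc
  rw [h]
  exact lgU_zero p (ma_comm hC) (finP p) u

/-- **Detection.** -/
theorem TU_detect (hC : ∀ a b : C, a * b = b * a) (p : ℕ) [hp : Fact p.Prime]
    (u : (MonoidAlgebra ℤ C)ˣ) (h : ∀ d, TU p u d = 0) : ∃ m : ℕ, 0 < m ∧ u ^ m = 1 := by
  obtain ⟨m, hm, h1⟩ := finP (C := C) p u
  refine ⟨m, hm, ?_⟩
  have h2 : ∀ d : C, lg p (cf d) ((u ^ m : (MonoidAlgebra ℤ C)ˣ) : MonoidAlgebra ℤ C) = 0 := by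
    intro d
    have h3 := h d
    unfold TU at h3
    rw [lgU_eq p (ma_comm hC) _ hm h1] at h3
    exact (smul_eq_zero.1 h3).resolve_left (inv_ne_zero (Nat.cast_ne_zero.2 hm.ne'))
  have h3 := lg_detect p (fun d : C => cf d) (fun a ha => ma_dvd ha) h1 h2
  apply Units.ext
  rw [Units.val_one]
  rw [← sub_eq_zero]
  apply MonoidAlgebra.coeff_injective
  ext d
  change _ = (0 : ℤ)
  set y := (((u ^ m : (MonoidAlgebra ℤ C)ˣ) : MonoidAlgebra ℤ C) - 1).coeff d with hy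
  have h4 : ∀ k : ℕ, (p : ℤ) ^ k ∣ y := by
    intro k
    obtain ⟨a, ha⟩ := h3 k
    have h5 : (p : MonoidAlgebra ℤ C) ^ (2 + k) = ((p ^ (2 + k) : ℕ) : MonoidAlgebra ℤ C) := by
      push_cast
      rfl
    rw [hy, ha, add_sub_cancel_left, h5, un_coeff_mul]
    push_cast
    exact (pow_dvd_pow _ (Nat.le_add_left k 2)).trans (Dvd.intro _ rfl)
  by_contra hne
  have h5 := Int.natAbs_dvd_natAbs.2 (h4 y.natAbs)
  rw [Int.natAbs_pow, Int.natAbs_natCast] at h5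
  have h6 := Nat.le_of_dvd (Int.natAbs_pos.2 hne) h5
  have h7 : y.natAbs < p ^ y.natAbs := Nat.lt_pow_self hp.out.one_lt
  exact absurd h6 (not_le.2 h7)

end MA

end Pool.Agent.H8.KL
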