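import Mathlib

/-!
# Project KL, module Ap: the vector space of sequences of `p`-adic approximations

`ZP p` : the ring of rational numbers with denominator prime to `p`.
`Nil p` : the sequences `a : ℕ → ℚ` with `p ^ K * a l ∈ p ^ l ℤ_(p)` for some `K` and all `l`.
`Ap p` : the quotient `(ℕ → ℚ) ⧸ Nil p`, a vector space over `ℚ`.
`lg p φ x` : the class of `l ↦ φ (x ^ p ^ l - 1) / p ^ l` for `x` in a ring and `φ` an additive map to `ℤ`.

* `lg_mul` : `lg` is additive on commuting `x, y` that are `1` modulo `p ^ 2`;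
* `lg_detect` : if `x = 1` modulo `p ^ 2` and `lg p φ x = 0` for a family of `φ` that detects divisibility by `p` then
  `x - 1` is divisible by all `p ^ k`.
-/

set_option autoImplicit false

universe u v w

namespace Pool.Agent.H8.KL

section ZP

variable (p : ℕ) [hp : Fact p.Prime]

/-- the ring of rational numbers with denominator prime to `p` -/
def ZP : Subring ℚ where
  carrier := {x | ¬ p ∣ x.den}
  mul_mem' {a b} ha hb := by
    intro h
    have h1 := h.trans (Rat.mul_den_dvd a b)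
    rcases (hp.out.dvd_mul).1 h1 with h2 | h2
    · exact ha h2
    · exact hb h2
  one_mem' := by
    intro h
    rw [Rat.den_one] at h
    exact hp.out.one_lt.ne' (Nat.dvd_one.1 h)
  add_mem' {a b} ha hb := by
    intro h
    have h1 := h.trans (Rat.add_den_dvd a b)
    rcases (hp.out.dvd_mul).1 h1 with h2 | h2
    · exact ha h2
    · exact hb h2
  zero_mem' := by
    intro h
    rw [Rat.den_zero] at h
    exact hp.out.one_lt.ne' (Nat.dvd_one.1 h)
  neg_mem' {a} ha := by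
    intro h
    rw [Rat.den_neg_eq_den] at h
    exact ha h

variable {p}

theorem mem_ZP {x : ℚ} : x ∈ ZP p ↔ ¬ p ∣ x.den := Iff.rfl

theorem int_mem_ZP (n : ℤ) : (n : ℚ) ∈ ZP p := intCast_mem _ n

theorem pow_mem_ZP (K : ℕ) : (p : ℚ) ^ K ∈ ZP p := pow_mem (natCast_mem _ p) K

/-- every rational number becomes `p`-integral after multiplication with a power of `p` -/
theorem exists_pow_mul_mem (q : ℚ) : ∃ K : ℕ, (p : ℚ) ^ K * q ∈ ZP p := by
  obtain ⟨K, m, hm, hq⟩ := Nat.exists_eq_pow_mul_and_not_dvd q.den_nz p hp.out.ne_one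
  refine ⟨K, ?_⟩
  rw [mem_ZP]
  have hm0 : (m : ℚ) ≠ 0 := by
    rintro h
    rw [Nat.cast_eq_zero] at h
    exact hm (h ▸ dvd_zero p)
  have h1 : (p : ℚ) ^ K * q = (q.num : ℚ) / (m : ℤ) := by
    have h2 : (q : ℚ) * q.den = q.num := Rat.mul_den_eq_num q
    rw [hq] at h2
    push_cast at h2
    rw [Int.cast_natCast, eq_div_iff hm0, ← h2]
    ring
  intro h
  rw [h1] at h
  apply hm
  have h4 := Rat.den_dvd q.num (m : ℤ)
  rw [Rat.divInt_eq_div, Int.natCast_dvd_natCast] at h4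
  exact h.trans h4

/-- an integer divided by a power of `p` is `p`-integral only if it is divisible -/
theorem dvd_of_div_mem {n : ℤ} {e : ℕ} (h : (n : ℚ) / (p : ℚ) ^ e ∈ ZP p) : (p : ℤ) ^ e ∣ n := by
  rw [mem_ZP] at h
  set x : ℚ := (n : ℚ) / (p : ℚ) ^ e with hx
  have hp0 : (p : ℚ) ^ e ≠ 0 := pow_ne_zero _ (Nat.cast_ne_zero.2 hp.out.ne_zero)
  have h1 : (x.num : ℚ) * (p : ℚ) ^ e = n * x.den := by
    have h2 : x * x.den = x.num := Rat.mul_den_eq_num x
    rw [← h2, hx]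
    field_simp
  have h3 : x.num * (p : ℤ) ^ e = n * x.den := by exact_mod_cast h1
  have h4 : IsCoprime ((p : ℤ) ^ e) (x.den : ℤ) := by
    apply IsCoprime.pow_left
    rw [Nat.isCoprime_iff_coprime]
    exact (Nat.Prime.coprime_iff_not_dvd hp.out).2 h
  exact h4.dvd_of_dvd_mul_right (Dvd.intro_left _ h3)

end ZP

section Ap

variable (p : ℕ) [hp : Fact p.Prime]

private theorem p_ne : (p : ℚ) ≠ 0 := Nat.cast_ne_zero.2 hp.out.ne_zero

/-- the sequences that tend to zero as fast as `p ^ l` -/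
def Nil : Submodule ℚ (ℕ → ℚ) where
  carrier := {a | ∃ K : ℕ, ∀ l, (p : ℚ) ^ K * a l / (p : ℚ) ^ l ∈ ZP p}
  add_mem' := by
    rintro a b ⟨K, hK⟩ ⟨K', hK'⟩
    refine ⟨K + K', fun l => ?_⟩
    have h1 := (ZP p).add_mem ((ZP p).mul_mem (pow_mem_ZP K') (hK l))
      ((ZP p).mul_mem (pow_mem_ZP K) (hK' l))
    have h2 : (p : ℚ) ^ (K + K') * (a + b) l / (p : ℚ) ^ l =
        (p : ℚ) ^ K' * ((p : ℚ) ^ K * a l / (p : ℚ) ^ l) +
          (p : ℚ) ^ K * ((p : ℚ) ^ K' * b l / (p : ℚ) ^ l) := by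
      rw [Pi.add_apply, pow_add]
      ring
    rw [h2]
    exact h1
  zero_mem' := ⟨0, fun l => by
    rw [Pi.zero_apply, mul_zero, zero_div]
    exact (ZP p).zero_mem⟩
  smul_mem' := by
    rintro q a ⟨K, hK⟩
    obtain ⟨K', hK'⟩ := exists_pow_mul_mem (p := p) q
    refine ⟨K + K', fun l => ?_⟩
    have h1 := (ZP p).mul_mem hK' (hK l)
    have h2 : (p : ℚ) ^ (K + K') * (q • a) l / (p : ℚ) ^ l =
        (p : ℚ) ^ K' * q * ((p : ℚ) ^ K * a l / (p : ℚ) ^ l) := by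
      rw [Pi.smul_apply, smul_eq_mul, pow_add]
      ring
    rw [h2]
    exact h1

theorem mem_Nil {a : ℕ → ℚ} :
    a ∈ Nil p ↔ ∃ K : ℕ, ∀ l, (p : ℚ) ^ K * a l / (p : ℚ) ^ l ∈ ZP p := Iff.rfl

/-- the quotient -/
abbrev Ap : Type := (ℕ → ℚ) ⧸ Nil p

/-- the class of a sequence -/
def cA : (ℕ → ℚ) →ₗ[ℚ] Ap p := (Nil p).mkQ

theorem cA_eq_zero {a : ℕ → ℚ} : cA p a = 0 ↔ a ∈ Nil p := Submodule.Quotient.mk_eq_zero _

variable {R : Type u} [Ring R] {S : Type v} [Ring S]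

/-- the elements that are `1` modulo `p ^ 2` -/
def One2 (x : R) : Prop := ∃ a : R, x = 1 + (p : R) ^ 2 * a

/-- the approximations of the logarithm -/
noncomputable def lg (φ : R →+ ℤ) (x : R) : Ap p :=
  cA p fun l => ((φ (x ^ p ^ l - 1) : ℤ) : ℚ) / (p : ℚ) ^ l

theorem lg_comp (f : R →+* S) (φ : S →+ ℤ) (x : R) :
    lg p φ (f x) = lg p (φ.comp f.toAddMonoidHom) x := by
  have h : ∀ l, φ (f x ^ p ^ l - 1) = (φ.comp f.toAddMonoidHom) (x ^ p ^ l - 1) := by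
    intro l
    change _ = φ (f (x ^ p ^ l - 1))
    rw [map_sub f, map_pow f, map_one f]
  unfold lg
  simp only [h]

omit hp in
private theorem one_add_pow (y : R) (n : ℕ) : ∃ b : R, (1 + y) ^ n = 1 + n * y + y ^ 2 * b := by
  induction n with
  | zero => exact ⟨0, by simp⟩
  | succ n ih =>
    obtain ⟨b, hb⟩ := ih
    refine ⟨n + b * (1 + y), ?_⟩
    have h1 : (n : R) * y = y * n := (Nat.cast_commute n y).eq
    rw [pow_succ, hb]
    push_cast
    rw [mul_add (y ^ 2), mul_add, mul_one, add_mul, add_mul, one_mul, add_mul, one_mul, h1,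
      mul_assoc y (n : R) y, h1, ← mul_assoc y y, ← pow_two, ← mul_assoc (y ^ 2) b, mul_add,
      mul_one]
    abel

omit hp in
/-- powers of elements that are `1` modulo `p ^ k`, `k ≥ 2` -/
theorem pow_one_add {k : ℕ} (hk : 2 ≤ k) (a : R) (l : ℕ) :
    ∃ b : R, (1 + (p : R) ^ k * a) ^ p ^ l = 1 + (p : R) ^ (k + l) * (a + p * b) := by
  induction l with
  | zero => exact ⟨0, by simp⟩
  | succ l ih =>
    obtain ⟨b, hb⟩ := ih
    obtain ⟨c, hc⟩ := one_add_pow ((p : R) ^ (k + l) * (a + p * b)) p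
    set t : R := a + p * b with ht
    have hcom : ∀ (e : ℕ) (x : R), (p : R) ^ e * x = x * (p : R) ^ e := fun e x =>
      ((Nat.cast_commute p x).pow_left e).eq
    refine ⟨b + (p : R) ^ (k + l - 2) * (t * t * c), ?_⟩
    rw [pow_succ, pow_mul, hb, hc]
    have h1 : ((p : R) ^ (k + l) * t) ^ 2 * c = (p : R) ^ (k + (l + 1)) *
        (p * ((p : R) ^ (k + l - 2) * (t * t * c))) := by
      have h2 : ((p : R) ^ (k + l) * t) ^ 2 = (p : R) ^ (k + l) * (p : R) ^ (k + l) * (t * t) := by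
        rw [pow_two]
        calc (p : R) ^ (k + l) * t * ((p : R) ^ (k + l) * t)
            = (p : R) ^ (k + l) * (t * (p : R) ^ (k + l)) * t := by simp only [mul_assoc]
          _ = (p : R) ^ (k + l) * ((p : R) ^ (k + l) * t) * t := by rw [← hcom _ t]
          _ = _ := by simp only [mul_assoc]
      have h3 : (p : R) ^ (k + l) * (p : R) ^ (k + l) =
          (p : R) ^ (k + (l + 1)) * (p * (p : R) ^ (k + l - 2)) := by
        rw [← pow_succ', ← pow_add, ← pow_add]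
        congr 1
        omega
      rw [h2, h3]
      simp only [mul_assoc]
    rw [h1, mul_add (p : R) b, ← add_assoc a, ← ht]
    have h4 : (p : R) * ((p : R) ^ (k + l) * t) = (p : R) ^ (k + (l + 1)) * t := by
      rw [← mul_assoc, ← pow_succ']
      congr 2
    rw [h4, mul_add _ t, add_assoc]

omit hp in
theorem One2.pow_eq {x : R} (hx : One2 p x) (l : ℕ) :
    ∃ b : R, x ^ p ^ l = 1 + (p : R) ^ (2 + l) * b := by
  obtain ⟨a, rfl⟩ := hx
  obtain ⟨b, hb⟩ := pow_one_add p le_rfl a l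
  exact ⟨_, hb⟩

omit hp in
theorem One2.mul {x y : R} (hx : One2 p x) (hy : One2 p y) : One2 p (x * y) := by
  obtain ⟨a, rfl⟩ := hx
  obtain ⟨b, rfl⟩ := hy
  refine ⟨a + b + a * ((p : R) ^ 2 * b), ?_⟩
  rw [mul_add, mul_add ((p : R) ^ 2), mul_add ((p : R) ^ 2), mul_one, add_mul, one_mul]
  simp only [mul_assoc]
  abel

omit hp in
theorem One2.one : One2 p (1 : R) := ⟨0, by simp⟩

omit hp in
theorem One2.pow {x : R} (hx : One2 p x) (n : ℕ) : One2 p (x ^ n) := by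
  induction n with
  | zero => rw [pow_zero]; exact One2.one p
  | succ n ih => rw [pow_succ]; exact ih.mul p hx

omit hp in
theorem One2.inv {u : Rˣ} (hu : One2 p (u : R)) : One2 p ((u⁻¹ : Rˣ) : R) := by
  obtain ⟨a, ha⟩ := hu
  refine ⟨-(a * (u⁻¹ : Rˣ)), ?_⟩
  have h1 : (1 : R) = u * (u⁻¹ : Rˣ) := u.mul_inv.symm
  rw [ha, add_mul, one_mul, mul_assoc] at h1
  rw [mul_neg]
  conv_rhs => rw [h1]
  abel

omit hp in
theorem One2.map (f : R →+* S) {x : R} (hx : One2 p x) : One2 p (f x) := by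
  obtain ⟨a, rfl⟩ := hx
  exact ⟨f a, by rw [map_add, map_one, map_mul, map_pow, map_natCast]⟩

omit hp in
private theorem map_pmul (φ : R →+ ℤ) (e : ℕ) (x : R) :
    φ ((p : R) ^ e * x) = (p : ℤ) ^ e * φ x := by
  rw [← Nat.cast_pow, ← nsmul_eq_mul, map_nsmul, nsmul_eq_mul, Nat.cast_pow]

theorem lg_one (φ : R →+ ℤ) : lg p φ 1 = 0 := by
  unfold lg
  rw [cA_eq_zero]
  refine ⟨0, fun l => ?_⟩
  change (p : ℚ) ^ 0 * (((φ (1 ^ p ^ l - 1) : ℤ) : ℚ) / (p : ℚ) ^ l) / (p : ℚ) ^ l ∈ ZP p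
  rw [one_pow, sub_self, map_zero, Int.cast_zero, zero_div, mul_zero, zero_div]
  exact (ZP p).zero_mem

/-- **The logarithm is additive.** -/
theorem lg_mul (φ : R →+ ℤ) {x y : R} (hx : One2 p x) (hy : One2 p y) (hxy : x * y = y * x) :
    lg p φ (x * y) = lg p φ x + lg p φ y := by
  unfold lg
  rw [← map_add, ← sub_eq_zero, ← map_sub, cA_eq_zero]
  refine ⟨0, fun l => ?_⟩
  obtain ⟨a, ha⟩ := hx.pow_eq p l
  obtain ⟨b, hb⟩ := hy.pow_eq p l
  have h1 : (x * y) ^ p ^ l = x ^ p ^ l * y ^ p ^ l := (show Commute x y from hxy).mul_pow _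
  have hcom : ∀ (e : ℕ) (x : R), (p : R) ^ e * x = x * (p : R) ^ e := fun e x =>
    ((Nat.cast_commute p x).pow_left e).eq
  have h2 : (x * y) ^ p ^ l - 1 - ((x ^ p ^ l - 1) + (y ^ p ^ l - 1)) =
      (p : R) ^ (2 * l + 4) * (a * b) := by
    rw [h1, ha, hb]
    have h3 : (p : R) ^ (2 + l) * a * ((p : R) ^ (2 + l) * b) = (p : R) ^ (2 * l + 4) * (a * b) := by
      calc (p : R) ^ (2 + l) * a * ((p : R) ^ (2 + l) * b)
          = (p : R) ^ (2 + l) * (a * (p : R) ^ (2 + l)) * b := by simp only [mul_assoc]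
        _ = (p : R) ^ (2 + l) * ((p : R) ^ (2 + l) * a) * b := by rw [← hcom _ a]
        _ = (p : R) ^ (2 + l) * (p : R) ^ (2 + l) * (a * b) := by simp only [mul_assoc]
        _ = _ := by
          rw [← pow_add]
          congr 2
          omega
    rw [← h3, mul_add, add_mul, one_mul, mul_one, add_mul, one_mul]
    abel
  have h4 := congrArg φ h2
  rw [map_pmul, map_sub, map_add] at h4
  have h5 : ((φ ((x * y) ^ p ^ l - 1) : ℤ) : ℚ) - (((φ (x ^ p ^ l - 1) : ℤ) : ℚ) +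
      ((φ (y ^ p ^ l - 1) : ℤ) : ℚ)) = (p : ℚ) ^ (2 * l + 4) * ((φ (a * b) : ℤ) : ℚ) := by
    exact_mod_cast h4
  have hp0 := p_ne p
  change (p : ℚ) ^ 0 * (((φ ((x * y) ^ p ^ l - 1) : ℤ) : ℚ) / (p : ℚ) ^ l -
      (((φ (x ^ p ^ l - 1) : ℤ) : ℚ) / (p : ℚ) ^ l +
        ((φ (y ^ p ^ l - 1) : ℤ) : ℚ) / (p : ℚ) ^ l)) / (p : ℚ) ^ l ∈ ZP p
  have h6 : (p : ℚ) ^ 0 * (((φ ((x * y) ^ p ^ l - 1) : ℤ) : ℚ) / (p : ℚ) ^ l -
      (((φ (x ^ p ^ l - 1) : ℤ) : ℚ) / (p : ℚ) ^ l +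
        ((φ (y ^ p ^ l - 1) : ℤ) : ℚ) / (p : ℚ) ^ l)) / (p : ℚ) ^ l =
      ((p ^ 4 * φ (a * b) : ℤ) : ℚ) := by
    rw [pow_zero, one_mul, ← add_div, ← sub_div, h5]
    have h7 : (p : ℚ) ^ (2 * l + 4) = (p : ℚ) ^ l * (p : ℚ) ^ l * (p : ℚ) ^ 4 := by ring
    rw [h7]
    push_cast
    field_simp
  rw [h6]
  exact int_mem_ZP _

theorem lg_pow (hR : ∀ x y : R, x * y = y * x) (φ : R →+ ℤ) {x : R} (hx : One2 p x) (n : ℕ) :
    lg p φ (x ^ n) = n • lg p φ x := by
  induction n with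
  | zero => rw [pow_zero, lg_one, zero_smul]
  | succ n ih => rw [pow_succ, lg_mul p φ (hx.pow p n) hx (hR _ _), ih, succ_nsmul]

/-- **Detection.** -/
theorem lg_detect {I : Type w} (φ : I → R →+ ℤ)
    (hφ : ∀ a : R, (∀ i, (p : ℤ) ∣ φ i a) → ∃ b, a = p * b) {x : R} (hx : One2 p x)
    (h : ∀ i, lg p (φ i) x = 0) (k : ℕ) : ∃ a : R, x = 1 + (p : R) ^ (2 + k) * a := by
  induction k with
  | zero => exact hx
  | succ k ih =>
    obtain ⟨a, ha⟩ := ih
    have hdiv : ∀ i, (p : ℤ) ∣ φ i a := by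
      intro i
      have h1 := h i
      unfold lg at h1
      rw [cA_eq_zero] at h1
      obtain ⟨K, hK⟩ := h1
      obtain ⟨b, hb⟩ := pow_one_add p (Nat.le_add_right 2 k) a (2 + k + K + 1)
      have h2 := hK (2 + k + K + 1)
      beta_reduce at h2
      rw [ha, hb, add_sub_cancel_left, map_pmul] at h2
      have hp0 := p_ne p
      have h3 : (p : ℚ) ^ K * ((((p : ℤ) ^ (2 + k + (2 + k + K + 1)) *
          φ i (a + (p : R) * b) : ℤ) : ℚ) / (p : ℚ) ^ (2 + k + K + 1)) /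
          (p : ℚ) ^ (2 + k + K + 1) = ((φ i (a + (p : R) * b) : ℤ) : ℚ) / (p : ℚ) ^ 1 := by
        push_cast
        rw [← mul_div_assoc, div_div, div_eq_div_iff (mul_ne_zero (pow_ne_zero _ hp0)
          (pow_ne_zero _ hp0)) (pow_ne_zero _ hp0)]
        ring
      rw [h3] at h2
      have h4 := dvd_of_div_mem h2
      rw [pow_one, map_add] at h4
      have h5 : φ i ((p : R) * b) = p * φ i b := by
        have := map_pmul p (φ i) 1 b
        rwa [pow_one, pow_one] at this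
      rw [h5] at h4
      exact (Int.dvd_add_left (Dvd.intro _ rfl)).1 h4
    obtain ⟨b, hb⟩ := hφ a hdiv
    refine ⟨b, ?_⟩
    rw [ha, hb, ← mul_assoc, ← pow_succ]
    rfl

end Ap

end Pool.Agent.H8.KL
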