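import Pool.Agent.H16.KN.Defs2
import Pool.Agent.H95.KM.Lau
import Pool.Agent.H71.FQ.Loc

/-!
# Project KN/KL: classes of `LKQ A n` which die over a larger ring

A class of `LKQ A' n` which dies in `LKQ A n` dies in `LKQ A'' n` for every ring `A''` between `A'` and `A` which
contains a finite set.
-/

set_option autoImplicit false

open Matrix
open scoped LaurentPolynomial

universe u v w w'

namespace Pool.Agent.H8.KL

open Pool.Agent.H71.FQ (HG HG.map KQ KQ.map KQ.cls KQ.mk KQ.mk_surjective KQ.map_mk KQ.mk_eq_zero KQ.exists_zero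
  SumH SumH.map incH prS exists_sum exists_mapGL_finset mapGL mapGL_injective exists_factor GLm
  mem_range_mapDomainRingHom mapDomainRingHom_injective)
open Pool.Agent.H16.KN
open Pool.Agent.H95.KM (posHom negHom lau lau_posHom lau_negHom lau_comp lau_single lau_injective exists_lau)

section

variable {A : Type u} [Ring A] {A' : Type v} [Ring A'] {n : ℕ}

/-- **Every class of `KQ A n` comes from the rings which contain a finite set.** -/
theorem KQ_exists_lift (y : KQ A n) :
    ∃ S : Finset A, ∀ {A'' : Type w} [Ring A''] (g : A'' →+* A),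
      Function.Injective g → (∀ a ∈ S, a ∈ Set.range g) → ∃ y' : KQ A'' n, KQ.map g y' = y := by
  classical
  obtain ⟨s, rfl⟩ := KQ.mk_surjective y
  obtain ⟨T, hT⟩ := exists_sum s
  choose S0 h0 using fun N => Pool.Agent.H71.FQ.HG.exists_lift'.{u, w} (prS A n N s)
  choose S1 h1 using fun N => exists_mapGL_finset.{u, w} (S0 N)
  refine ⟨T.biUnion S1, ?_⟩
  intro A'' _ g hg h
  have h2 : ∀ N, ∃ y : HG (GLm N A'') n, N ∈ T → HG.map n (mapGL g N) y = prS A n N s := by
    intro N
    by_cases hN : N ∈ T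
    · obtain ⟨y, hy⟩ := h0 N (mapGL g N) (mapGL_injective hg N)
        (h1 N g hg fun a ha => h a (Finset.mem_biUnion.2 ⟨N, hN, ha⟩))
      exact ⟨y, fun _ => hy⟩
    · exact ⟨0, fun h' => absurd h' hN⟩
  choose y hy using h2
  refine ⟨KQ.mk A'' n (∑ N ∈ T, incH A'' n N (y N)), ?_⟩
  rw [KQ.map_mk, map_sum]
  congr 1
  conv_rhs => rw [hT]
  refine Finset.sum_congr rfl fun N hN => ?_
  rw [Pool.Agent.H71.FQ.SumH.map_incH, hy N hN]

theorem mem_range_pol {A : Type u} [Ring A] {A'' : Type w} [Ring A''] (g : A'' →+* A)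
    (p : Polynomial A) (h : ∀ i, p.coeff i ∈ Set.range g) :
    p ∈ Set.range (Polynomial.mapRingHom g) := by
  have h1 : p ∈ Polynomial.lifts g := by
    rw [Polynomial.lifts_iff_coeff_lifts]
    exact h
  rw [Polynomial.mem_lifts] at h1
  obtain ⟨q, hq⟩ := h1
  exact ⟨q, hq⟩

/-- the coefficients of a finite set of polynomials -/
theorem exists_coeffs_pol {A : Type u} [Ring A] (S : Finset (Polynomial A)) : ∃ C : Finset A,
    ∀ {A'' : Type w} [Ring A''] (g : A'' →+* A), (∀ a ∈ C, a ∈ Set.range g) →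
      ∀ p ∈ S, p ∈ Set.range (Polynomial.mapRingHom g) := by
  classical
  refine ⟨S.biUnion fun p => p.support.image p.coeff, ?_⟩
  intro A'' _ g h p hp
  refine mem_range_pol g p fun i => ?_
  by_cases hi : i ∈ p.support
  · exact h _ (Finset.mem_biUnion.2 ⟨p, hp, Finset.mem_image_of_mem _ hi⟩)
  · rw [Polynomial.mem_support_iff, not_not] at hi
    exact ⟨0, by rw [map_zero, hi]⟩

/-- the coefficients of a finite set of Laurent polynomials -/
theorem exists_coeffs_lau {A : Type u} [Ring A] (S : Finset A[T;T⁻¹]) : ∃ C : Finset A,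
    ∀ {A'' : Type w} [Ring A''] (g : A'' →+* A), (∀ a ∈ C, a ∈ Set.range g) →
      ∀ p ∈ S, p ∈ Set.range (lau g) := by
  classical
  refine ⟨S.biUnion fun p => p.coeff.support.image p.coeff, ?_⟩
  intro A'' _ g h p hp
  refine exists_lau p fun i => ?_
  by_cases hi : i ∈ p.coeff.support
  · exact h _ (Finset.mem_biUnion.2 ⟨p, hp, Finset.mem_image_of_mem _ hi⟩)
  · rw [Finsupp.mem_support_iff, not_not] at hi
    exact ⟨0, by rw [map_zero, hi]⟩

theorem mapRingHom_injective {A : Type u} [Ring A] {A'' : Type w} [Ring A''] {g : A'' →+* A}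
    (hg : Function.Injective g) : Function.Injective (Polynomial.mapRingHom g) :=
  Polynomial.map_injective g hg

/-- **A class of `LKQ A' n` which dies in `LKQ A n` dies over the rings which contain a finite set.** -/
theorem LKQ_exists_zero (f : A' →+* A) (y : LKQ A' n) (hy : LKQ.map f y = 0) :
    ∃ S : Finset A, ∀ {A'' : Type w} [Ring A''] (g : A'' →+* A) (k : A' →+* A''),
      Function.Injective g → g.comp k = f → (∀ a ∈ S, a ∈ Set.range g) →
        LKQ.map k y = 0 := by
  classical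
  obtain ⟨x, rfl⟩ := LKQ.mk_surjective y
  rw [LKQ.map_mk, LKQ.mk_eq_zero_iff] at hy
  obtain ⟨a, b, hab⟩ := hy
  obtain ⟨S1, h1⟩ := KQ_exists_lift.{u, u} a
  obtain ⟨S2, h2⟩ := KQ_exists_lift.{u, u} b
  obtain ⟨C1, c1⟩ := exists_coeffs_pol.{u, u} S1
  obtain ⟨C2, c2⟩ := exists_coeffs_pol.{u, u} S2
  let B : Subring A := Subring.closure (Set.range f ∪ ((C1 ∪ C2 : Finset A) : Set A))
  have hfB : ∀ a, f a ∈ B := fun a => Subring.subset_closure (Or.inl ⟨a, rfl⟩)
  have hCB : ∀ a ∈ C1 ∪ C2, a ∈ Set.range B.subtype := fun a ha =>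
    ⟨⟨a, Subring.subset_closure (Or.inr ha)⟩, rfl⟩
  let f1 : A' →+* B := f.codRestrict B hfB
  have hf1 : B.subtype.comp f1 = f := RingHom.ext fun a => rfl
  obtain ⟨a1, ha1⟩ := h1 (Polynomial.mapRingHom B.subtype)
    (mapRingHom_injective Subtype.val_injective)
    (c1 B.subtype fun a ha => hCB a (Finset.mem_union_left _ ha))
  obtain ⟨b1, hb1⟩ := h2 (Polynomial.mapRingHom B.subtype)
    (mapRingHom_injective Subtype.val_injective)
    (c2 B.subtype fun a ha => hCB a (Finset.mem_union_right _ ha))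
  have h3 : KQ.map (lau B.subtype) (KQ.map (lau f1) x -
      (KQ.map (posHom B) a1 + KQ.map (negHom B) b1)) = 0 := by
    rw [map_sub, map_add, KQ_map_map, KQ_map_map, KQ_map_map, lau_posHom, lau_negHom,
      ← KQ_map_map (posHom A), ← KQ_map_map (negHom A), ha1, hb1, hab, ← lau_comp, hf1, sub_self]
  obtain ⟨S3, h4⟩ := KQ.exists_zero.{u, u, w} (lau B.subtype) _ h3
  obtain ⟨C3, c3⟩ := exists_coeffs_lau.{u, w} S3
  refine ⟨(C1 ∪ C2) ∪ C3, ?_⟩
  intro A'' _ g k hg hgk h
  have hB : B ≤ g.range := by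
    rw [Subring.closure_le]
    rintro a (⟨b, rfl⟩ | ha)
    · exact ⟨k b, RingHom.congr_fun hgk b⟩
    · exact h a (Finset.mem_union_left _ ha)
  obtain ⟨k1, hk1⟩ := exists_factor g hg B hB
  have h5 := h4 (lau g) (lau k1) (lau_injective hg) (by rw [← lau_comp, hk1])
    (c3 g fun a ha => h a (Finset.mem_union_right _ ha))
  have h6 : k1.comp f1 = k := by
    refine RingHom.ext fun a => hg ?_
    have h6 := RingHom.congr_fun hk1 (f1 a)
    have h7 := RingHom.congr_fun hgk a
    exact h6.trans h7.symm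
  rw [map_sub, map_add, KQ_map_map, KQ_map_map, KQ_map_map, lau_posHom, lau_negHom,
      ← KQ_map_map (posHom A''), ← KQ_map_map (negHom A''), ← lau_comp, h6, sub_eq_zero] at h5
  rw [LKQ.map_mk, LKQ.mk_eq_zero_iff]
  exact ⟨_, _, h5.symm⟩

theorem LKQ_map_map {A'' : Type w} [Ring A''] (g : A →+* A'') (f : A' →+* A) (y : LKQ A' n) :
    LKQ.map g (LKQ.map f y) = LKQ.map (g.comp f) y := by
  obtain ⟨x, rfl⟩ := LKQ.mk_surjective y
  rw [LKQ.map_mk, LKQ.map_mk, LKQ.map_mk, KQ_map_map, lau_comp]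

end

end Pool.Agent.H8.KL
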