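import Pool.Agent.H8.KL.LocN
import Pool.Agent.H8.KL.LocL
import Pool.Agent.H39.KL.One
import Pool.Agent.H71.FU0.LocF0

/-!
# Project KL: rational injectivity of the joint assembly map is a local property
-/

set_option autoImplicit false

open Matrix
open scoped LaurentPolynomial

universe u v w

namespace Pool.Agent.H8.KL

open Pool.Agent.H71.FQ Pool.Agent.H16.KN Pool.Agent.H16.FU Pool.Agent.H39.KL
open Pool.Agent.H71.FU1 (mapH1 mapH1_mapH1 assembly1_map exists_lift1)
open Pool.Agent.H71.FU0 (H0K1 assembly10 assembly10_map map0 map0_map0 exists_lift0)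
open Pool.Agent.H95.KM (lau)

/-- **Rational injectivity of a natural homomorphism to `LKQ (R[G]) n` is a local property.** -/
theorem ratInj_local {R : Type u} [Ring R] {G : Type v} [Group G] {n : ℕ}
    (X : ∀ (H : Type v) [Group H], Type w) [∀ (H : Type v) [Group H], AddCommGroup (X H)]
    (mp : ∀ (H H' : Type v) [Group H] [Group H'], (H →* H') → (X H →+ X H'))
    (hmp : ∀ (H H' H'' : Type v) [Group H] [Group H'] [Group H''] (φ : H →* H') (ψ : H' →* H'')
      (z : X H), mp H' H'' ψ (mp H H' φ z) = mp H H'' (ψ.comp φ) z)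
    (al : ∀ (H : Type v) [Group H], X H →+ LKQ (MonoidAlgebra R H) n)
    (hal : ∀ (H H' : Type v) [Group H] [Group H'] (φ : H →* H') (z : X H),
      al H' (mp H H' φ z) = LKQ.map (MonoidAlgebra.mapDomainRingHom R φ) (al H z))
    (lift : ∀ z : X G, ∃ S : Finset G, ∀ G' : Subgroup G, (∀ s ∈ S, s ∈ G') →
      ∃ y : X G', mp G' G G'.subtype y = z)
    (P : Subgroup G → Prop)
    (hP : ∀ S : Finset G, ∃ G' : Subgroup G, P G' ∧ ∀ g ∈ S, g ∈ G')
    (h : ∀ G' : Subgroup G, P G' → RatInj (al G')) : RatInj (al G) := by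
  classical
  rw [ratInj_iff]
  intro z M hM hz
  obtain ⟨S, hS⟩ := lift z
  obtain ⟨z1, hz1⟩ := hS (Subgroup.closure (S : Set G)) fun s hs => Subgroup.subset_closure hs
  have h1 : LKQ.map (MonoidAlgebra.mapDomainRingHom R (Subgroup.closure (S : Set G)).subtype)
      (M • al (Subgroup.closure (S : Set G)) z1) = 0 := by
    rw [map_zsmul, ← hal, hz1, hz]
  obtain ⟨T, hT⟩ := LKQ_exists_zero.{max u v, max u v, max u v} _ _ h1
  obtain ⟨G', hPG, hG'⟩ := hP (S ∪ T.biUnion fun a => a.coeff.support)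
  have hle : Subgroup.closure (S : Set G) ≤ G' := by
    rw [Subgroup.closure_le]
    intro s hs
    exact hG' s (Finset.mem_union_left _ hs)
  have hcomp : G'.subtype.comp (Subgroup.inclusion hle) =
      (Subgroup.closure (S : Set G)).subtype := rfl
  have h2 : LKQ.map (MonoidAlgebra.mapDomainRingHom R (Subgroup.inclusion hle))
      (M • al (Subgroup.closure (S : Set G)) z1) = 0 := by
    refine hT (MonoidAlgebra.mapDomainRingHom R G'.subtype) _
      (mapDomainRingHom_injective R _ G'.subtype_injective) ?_ ?_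
    · rw [← hcomp]
      exact (MonoidAlgebra.mapDomainRingHom_comp _ _).symm
    · intro a ha
      exact mem_range_mapDomainRingHom R G' a fun g hg =>
        hG' g (Finset.mem_union_right _ (Finset.mem_biUnion.2 ⟨a, ha, hg⟩))
  rw [map_zsmul, ← hal] at h2
  obtain ⟨m, hm, h3⟩ := ratInj_iff.1 (h G' hPG) _ M hM h2
  refine ⟨m, hm, ?_⟩
  have h4 := congrArg (mp G' G G'.subtype) h3
  rw [map_zsmul, hmp, map_zero, hcomp, hz1] at h4
  exact h4

section

variable {R : Type u} [Ring R] {G : Type v} [Group G] {G' : Type w} [Group G']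

/-- the classes of the monomials are natural in the group -/
theorem mono1_map (φ : G →* G') (n : ℕ) (y : HG G n) :
    KQ.map (MonoidAlgebra.mapDomainRingHom R φ) (mono1 R G n y) =
      mono1 R G' n (HG.map n φ y) := by
  rw [mono1, mono1, AddMonoidHom.comp_apply, AddMonoidHom.comp_apply, KQ.map_cls, HG.map_map,
    HG.map_map]
  congr 2
  have e : (mapGL (MonoidAlgebra.mapDomainRingHom R φ) 1).comp (scal 1 (grpHom R G)) =
      (scal 1 (grpHom R G')).comp φ := by
    refine MonoidHom.ext fun g => Units.ext ?_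
    change (Matrix.diagonal fun _ : Fin 1 => MonoidAlgebra.single g (1 : R)).map
      (MonoidAlgebra.mapDomainRingHom R φ) =
      Matrix.diagonal fun _ : Fin 1 => MonoidAlgebra.single (φ g) (1 : R)
    rw [Matrix.diagonal_map (map_zero _)]
    congr 1
    funext _
    exact MonoidAlgebra.mapDomain_single
  rw [e]

/-- the product with `t` and the class in `LKQ` are natural -/
theorem mk_tp_map {A : Type u} [Ring A] {A' : Type v} [Ring A'] (f : A →+* A') (n : ℕ)
    (x : KQ A n) : LKQ.map f (LKQ.mk (tp A n x)) = LKQ.mk (tp A' n (KQ.map f x)) := by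
  rw [LKQ.map_mk, map_tp]

end

section

/-- the source of `asmAll` -/
abbrev XAll (k : ℕ) (G : Type v) [Group G] : Type v :=
  HG G (k + 1) × HnK1 ℤ G k × HnKm1 ℤ G (k + 2)

/-- functoriality of the source of `asmAll` -/
noncomputable def mapAll (k : ℕ) (G G' : Type v) [Group G] [Group G'] (φ : G →* G') :
    XAll k G →+ XAll k G' :=
  (HG.map (k + 1) φ).prodMap ((mapH1 ℤ k φ).prodMap (mapHN ℤ (k + 2) φ))

theorem mapAll_mapAll (k : ℕ) (G G' G'' : Type v) [Group G] [Group G'] [Group G'']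
    (φ : G →* G') (ψ : G' →* G'') (z : XAll k G) :
    mapAll k G' G'' ψ (mapAll k G G' φ z) = mapAll k G G'' (ψ.comp φ) z := by
  refine Prod.ext (HG.map_map _ _ _) (Prod.ext (mapH1_mapH1 ℤ k φ ψ z.2.1)
    (mapHN_mapHN ℤ (k + 2) φ ψ z.2.2))

/-- **The joint assembly map is natural in the group.** -/
theorem asmAll_map (k : ℕ) (G G' : Type v) [Group G] [Group G'] (φ : G →* G') (z : XAll k G) :
    asmAll G' k (mapAll k G G' φ z) =
      LKQ.map (MonoidAlgebra.mapDomainRingHom ℤ φ) (asmAll G k z) := by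
  change LKQ.mk (tp _ (k + 1) (mono1 ℤ G' (k + 1) (HG.map (k + 1) φ z.1))) +
      (LKQ.mk (tp _ (k + 1) (assembly1 ℤ k G' (mapH1 ℤ k φ z.2.1))) +
        asmKm1 ℤ (k + 2) G' (mapHN ℤ (k + 2) φ z.2.2)) =
    LKQ.map (MonoidAlgebra.mapDomainRingHom ℤ φ)
      (LKQ.mk (tp _ (k + 1) (mono1 ℤ G (k + 1) z.1)) +
        (LKQ.mk (tp _ (k + 1) (assembly1 ℤ k G z.2.1)) + asmKm1 ℤ (k + 2) G z.2.2))
  rw [map_add, map_add, mk_tp_map, mk_tp_map, asmKm1_map, assembly1_map, mono1_map]

theorem exists_liftAll (k : ℕ) (G : Type v) [Group G] (z : XAll k G) :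
    ∃ S : Finset G, ∀ G' : Subgroup G, (∀ s ∈ S, s ∈ G') →
      ∃ y : XAll k G', mapAll k G' G G'.subtype y = z := by
  classical
  obtain ⟨S1, h1⟩ := HG.exists_lift z.1
  obtain ⟨S2, h2⟩ := exists_lift1 ℤ k z.2.1
  obtain ⟨S3, h3⟩ := exists_liftN ℤ (k + 2) z.2.2
  refine ⟨S1 ∪ (S2 ∪ S3), fun G' hG' => ?_⟩
  obtain ⟨y1, e1⟩ := h1 G' fun s hs => hG' s (Finset.mem_union_left _ hs)
  obtain ⟨y2, e2⟩ := h2 G' fun s hs => hG' s (Finset.mem_union_right _ (Finset.mem_union_left _ hs))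
  obtain ⟨y3, e3⟩ := h3 G' fun s hs => hG' s (Finset.mem_union_right _ (Finset.mem_union_right _ hs))
  exact ⟨(y1, y2, y3), Prod.ext e1 (Prod.ext e2 e3)⟩

/-- **Rational injectivity of the joint assembly map in degree `k + 2` is a local property.** -/
theorem asmAll_directed (G : Type v) [Group G] (k : ℕ) (P : Subgroup G → Prop)
    (hP : ∀ S : Finset G, ∃ G' : Subgroup G, P G' ∧ ∀ g ∈ S, g ∈ G')
    (h : ∀ G' : Subgroup G, P G' → RatInj (asmAll G' k)) : RatInj (asmAll G k) := by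
  refine @ratInj_local ℤ _ G _ (k + 2) (fun H _ => XAll k H) (fun H _ => Prod.instAddCommGroup)
    (fun H H' _ _ φ => mapAll k H H' φ) ?_ (fun H _ => asmAll H k) ?_ ?_ P hP h
  · exact fun H H' H'' _ _ _ φ ψ z => mapAll_mapAll k H H' H'' φ ψ z
  · exact fun H H' _ _ φ z => asmAll_map k H H' φ z
  · exact exists_liftAll k G

/-- the source of `asmOne` -/
abbrev XOne (G : Type v) [Group G] : Type v := HG G 0 × H0K1 ℤ G × HnKm1 ℤ G 1

/-- functoriality of the source of `asmOne` -/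
noncomputable def mapOne (G G' : Type v) [Group G] [Group G'] (φ : G →* G') :
    XOne G →+ XOne G' :=
  (HG.map 0 φ).prodMap ((map0 ℤ φ).prodMap (mapHN ℤ 1 φ))

theorem mapOne_mapOne (G G' G'' : Type v) [Group G] [Group G'] [Group G'']
    (φ : G →* G') (ψ : G' →* G'') (z : XOne G) :
    mapOne G' G'' ψ (mapOne G G' φ z) = mapOne G G'' (ψ.comp φ) z := by
  refine Prod.ext (HG.map_map _ _ _) (Prod.ext (map0_map0 ℤ φ ψ z.2.1)
    (mapHN_mapHN ℤ 1 φ ψ z.2.2))

/-- **The joint assembly map in degree one is natural in the group.** -/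
theorem asmOne_map (G G' : Type v) [Group G] [Group G'] (φ : G →* G') (z : XOne G) :
    asmOne G' (mapOne G G' φ z) =
      LKQ.map (MonoidAlgebra.mapDomainRingHom ℤ φ) (asmOne G z) := by
  change LKQ.mk (tp _ 0 (mono1 ℤ G' 0 (HG.map 0 φ z.1))) +
      (LKQ.mk (tp _ 0 (assembly10 ℤ G' (map0 ℤ φ z.2.1))) +
        asmKm1 ℤ 1 G' (mapHN ℤ 1 φ z.2.2)) =
    LKQ.map (MonoidAlgebra.mapDomainRingHom ℤ φ)
      (LKQ.mk (tp _ 0 (mono1 ℤ G 0 z.1)) +
        (LKQ.mk (tp _ 0 (assembly10 ℤ G z.2.1)) + asmKm1 ℤ 1 G z.2.2))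
  rw [map_add, map_add, mk_tp_map, mk_tp_map, asmKm1_map, assembly10_map, mono1_map]

theorem exists_liftOne (G : Type v) [Group G] (z : XOne G) :
    ∃ S : Finset G, ∀ G' : Subgroup G, (∀ s ∈ S, s ∈ G') →
      ∃ y : XOne G', mapOne G' G G'.subtype y = z := by
  classical
  obtain ⟨S1, h1⟩ := HG.exists_lift z.1
  obtain ⟨S2, h2⟩ := exists_lift0 ℤ z.2.1
  obtain ⟨S3, h3⟩ := exists_liftN ℤ 1 z.2.2
  refine ⟨S1 ∪ (S2 ∪ S3), fun G' hG' => ?_⟩
  obtain ⟨y1, e1⟩ := h1 G' fun s hs => hG' s (Finset.mem_union_left _ hs)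
  obtain ⟨y2, e2⟩ := h2 G' fun s hs => hG' s (Finset.mem_union_right _ (Finset.mem_union_left _ hs))
  obtain ⟨y3, e3⟩ := h3 G' fun s hs => hG' s (Finset.mem_union_right _ (Finset.mem_union_right _ hs))
  exact ⟨(y1, y2, y3), Prod.ext e1 (Prod.ext e2 e3)⟩

/-- **Rational injectivity of the joint assembly map in degree one is a local property.** -/
theorem asmOne_directed (G : Type v) [Group G] (P : Subgroup G → Prop)
    (hP : ∀ S : Finset G, ∃ G' : Subgroup G, P G' ∧ ∀ g ∈ S, g ∈ G')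
    (h : ∀ G' : Subgroup G, P G' → RatInj (asmOne G')) : RatInj (asmOne G) := by
  refine @ratInj_local ℤ _ G _ 1 (fun H _ => XOne H) (fun H _ => Prod.instAddCommGroup)
    (fun H H' _ _ φ => mapOne H H' φ) ?_ (fun H _ => asmOne H) ?_ ?_ P hP h
  · exact fun H H' H'' _ _ _ φ ψ z => mapOne_mapOne H H' H'' φ ψ z
  · exact fun H H' _ _ φ z => asmOne_map H H' φ z
  · exact exists_liftOne G

end

end Pool.Agent.H8.KL
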