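import Pool.Agent.H16.KN.Defs2
import Pool.Agent.H71.FQ.Loc

/-!
# Project KN/KL: functoriality of the source of the assembly map in the group, the `K₋₁`-part

As `Pool/Agent/H71/FU1/LocF1.lean` with `K₋₁` in place of `K₁`.
-/

set_option autoImplicit false

open Matrix

universe u v w

namespace Pool.Agent.H8.KL

open Pool.Agent.H71.FQ (HG HG.map HG.map_map HG.map_id HG.exists_lift rangeF centRestrict centConj cent_comm comm_map
  KQ KQ.map grpHom grpHom_comm)
open Pool.Agent.H16.KN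
open Pool.Agent.H95.KM (Km1 Km1.map Km1.map_map ind)
open Pool.Agent.H95.WH (FamSub conjHom FinSub)

theorem ind_ind (R : Type u) [Ring R] {F F' F'' : Type*} [Group F] [Group F'] [Group F'']
    (φ : F' →* F'') (ψ : F →* F') (x : Km1 (MonoidAlgebra R F)) :
    ind R φ (ind R ψ x) = ind R (φ.comp ψ) x := by
  rw [ind, ind, ind, Km1.map_map, ← MonoidAlgebra.mapDomainRingHom_comp]

section

variable {R : Type u} [Ring R] {G : Type v} [Group G] {n : ℕ}

variable {H : Type*} [Group H] [Finite H] {Γ : Type w} [Group Γ]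

/-- The class of a pair of commuting homomorphisms. -/
noncomputable def gsymN (f : H →* G) (κ : Γ →* G) (h : ∀ γ a, f a * κ γ = κ γ * f a)
    (x : Km1 (MonoidAlgebra R H)) (z : HG Γ n) : HnKm1 R G n :=
  sym (rangeF f) (ind R f.rangeRestrict x)
    (HG.map n (centRestrict f κ h) z)

theorem gsymN_add_left (f : H →* G) (κ : Γ →* G) (h : ∀ γ a, f a * κ γ = κ γ * f a)
    (x y : Km1 (MonoidAlgebra R H)) (z : HG Γ n) :
    gsymN f κ h (x + y) z = gsymN f κ h x z + gsymN f κ h y z := by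
  rw [gsymN, map_add, sym_add]
  rfl

theorem gsymN_add_right (f : H →* G) (κ : Γ →* G) (h : ∀ γ a, f a * κ γ = κ γ * f a)
    (x : Km1 (MonoidAlgebra R H)) (z z' : HG Γ n) :
    gsymN f κ h x (z + z') = gsymN f κ h x z + gsymN f κ h x z' := by
  rw [gsymN, map_add, sym_addz]
  rfl

/-- the biadditive map -/
noncomputable def gsymBN (f : H →* G) (κ : Γ →* G) (h : ∀ γ a, f a * κ γ = κ γ * f a) :
    Km1 (MonoidAlgebra R H) →+ HG Γ n →+ HnKm1 R G n :=
  AddMonoidHom.mk' (fun x => AddMonoidHom.mk' (fun z => gsymN f κ h x z)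
    (fun z z' => gsymN_add_right f κ h x z z')) (by
      intro x y
      ext z
      exact gsymN_add_left f κ h x y z)

theorem gsymN_comp {H' : Type*} [Group H'] [Finite H'] (f : H →* G) (ψ : H' →* H) (κ : Γ →* G)
    (h : ∀ γ a, f a * κ γ = κ γ * f a) (h' : ∀ γ a, (f.comp ψ) a * κ γ = κ γ * (f.comp ψ) a)
    (x : Km1 (MonoidAlgebra R H')) (z : HG Γ n) :
    gsymN f κ h (ind R ψ x) z =
      gsymN (f.comp ψ) κ h' x z := by
  have hr : ∀ x ∈ (rangeF (f.comp ψ)).1, (1 : G) * x * (1 : G)⁻¹ ∈ (rangeF f).1 := by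
    rintro _ ⟨a, rfl⟩
    rw [one_mul, inv_one, mul_one]
    exact ⟨ψ a, rfl⟩
  have e1 : f.rangeRestrict.comp ψ = (conjHom 1 (rangeF (f.comp ψ)).1 (rangeF f).1 hr).comp
        (f.comp ψ).rangeRestrict := by
    refine MonoidHom.ext fun a => Subtype.ext ?_
    change f (ψ a) = 1 * f (ψ a) * 1⁻¹
    rw [one_mul, inv_one, mul_one]
  have e2 : (centConj 1 (rangeF (f.comp ψ)).1 (rangeF f).1 hr).comp (centRestrict f κ h) =
      centRestrict (f.comp ψ) κ h' := by
    refine MonoidHom.ext fun a => Subtype.ext ?_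
    change (1 : G)⁻¹ * κ a * 1 = κ a
    rw [inv_one, one_mul, mul_one]
  rw [gsymN, gsymN, ind_ind, e1]
  change sym (rangeF f) (ind R ((conjHom 1 (rangeF (f.comp ψ)).1 (rangeF f).1 hr).comp
    (f.comp ψ).rangeRestrict) x) _ = _
  rw [← ind_ind, sym_conj, HG.map_map, e2]

theorem gsymN_map {Γ' : Type*} [Group Γ'] (f : H →* G) (κ : Γ →* G) (ψ : Γ' →* Γ)
    (h : ∀ γ a, f a * κ γ = κ γ * f a) (h' : ∀ γ a, f a * (κ.comp ψ) γ = (κ.comp ψ) γ * f a)
    (x : Km1 (MonoidAlgebra R H)) (z : HG Γ' n) :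
    gsymN f κ h x (HG.map n ψ z) = gsymN f (κ.comp ψ) h' x z := by
  rw [gsymN, gsymN, HG.map_map]
  rfl

theorem gsymN_conj (f f' : H →* G) (κ κ' : Γ →* G) (g : G) (h : ∀ γ a, f a * κ γ = κ γ * f a)
    (h' : ∀ γ a, f' a * κ' γ = κ' γ * f' a) (hf : ∀ a, f' a = g * f a * g⁻¹)
    (hκ : ∀ γ, κ' γ = g * κ γ * g⁻¹) (x : Km1 (MonoidAlgebra R H)) (z : HG Γ n) :
    gsymN f' κ' h' x z = gsymN f κ h x z := by
  have hr : ∀ x ∈ (rangeF f).1, g * x * g⁻¹ ∈ (rangeF f').1 := by
    rintro _ ⟨a, rfl⟩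
    exact ⟨a, hf a⟩
  have e1 : f'.rangeRestrict = (conjHom g (rangeF f).1 (rangeF f').1 hr).comp f.rangeRestrict :=
    MonoidHom.ext fun a => Subtype.ext (hf a)
  have e2 : (centConj g (rangeF f).1 (rangeF f').1 hr).comp (centRestrict f' κ' h') =
      centRestrict f κ h := by
    refine MonoidHom.ext fun a => Subtype.ext ?_
    change g⁻¹ * κ' a * g = κ a
    rw [hκ]
    group
  rw [gsymN, gsymN, e1]
  change sym (rangeF f') (ind R ((conjHom g (rangeF f).1 (rangeF f').1 hr).comp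
    f.rangeRestrict) x) _ = _
  rw [← ind_ind, sym_conj, HG.map_map, e2]

/-- the class of a symbol is the class of the inclusions -/
theorem sym_eq_gsymN (F : FamSub G FinSub) (x : Km1 (MonoidAlgebra R F.1))
    (z : HG (Subgroup.centralizer (F.1 : Set G)) n) (hF : Finite F.1) :
    sym F x z = gsymN F.1.subtype (Subgroup.centralizer (F.1 : Set G)).subtype
      (cent_comm F.1) x z := by
  have hr : ∀ x ∈ F.1, (1 : G) * x * (1 : G)⁻¹ ∈ (rangeF F.1.subtype).1 := by
    intro a ha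
    rw [one_mul, inv_one, mul_one]
    exact ⟨⟨a, ha⟩, rfl⟩
  have e1 : F.1.subtype.rangeRestrict = conjHom 1 F.1 (rangeF F.1.subtype).1 hr := by
    refine MonoidHom.ext fun a => Subtype.ext ?_
    change (a : G) = 1 * a * 1⁻¹
    rw [one_mul, inv_one, mul_one]
  have e2 : (centConj 1 F.1 (rangeF F.1.subtype).1 hr).comp
      (centRestrict F.1.subtype (Subgroup.centralizer (F.1 : Set G)).subtype (cent_comm F.1)) =
      MonoidHom.id _ := by
    refine MonoidHom.ext fun a => Subtype.ext ?_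
    change (1 : G)⁻¹ * a * 1 = a
    rw [inv_one, one_mul, mul_one]
  rw [gsymN, e1]
  change _ = sym (rangeF F.1.subtype) (ind R (conjHom 1 F.1 (rangeF F.1.subtype).1 hr) x) _
  rw [sym_conj, HG.map_map, e2, HG.map_id]

end

section

variable (R : Type u) [Ring R] (n : ℕ) {G : Type v} [Group G] {G' : Type w} [Group G']

/-- the image of a symbol as a biadditive map -/
noncomputable def symFN (φ : G →* G') (F : FamSub G FinSub) : Km1 (MonoidAlgebra R F.1) →+
    HG (Subgroup.centralizer (F.1 : Set G)) n →+ HnKm1 R G' n :=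
  have : Finite F.1 := F.2
  gsymBN (φ.comp F.1.subtype) (φ.comp (Subgroup.centralizer (F.1 : Set G)).subtype)
    (comm_map φ F.1)

theorem symFN_conj (φ : G →* G') (F F' : FamSub G FinSub) (g : G)
    (h : ∀ x ∈ F.1, g * x * g⁻¹ ∈ F'.1) (x : Km1 (MonoidAlgebra R F.1))
    (z : HG (Subgroup.centralizer (F'.1 : Set G)) n) :
    symFN R n φ F' (ind R (conjHom g F.1 F'.1 h) x) z =
      symFN R n φ F x (HG.map n (centConj g F.1 F'.1 h) z) := by
  have : Finite F.1 := F.2
  have : Finite F'.1 := F'.2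
  change gsymN (φ.comp F'.1.subtype) (φ.comp (Subgroup.centralizer (F'.1 : Set G)).subtype)
      (comm_map φ F'.1) (ind R (conjHom g F.1 F'.1 h) x) z =
    gsymN (φ.comp F.1.subtype) (φ.comp (Subgroup.centralizer (F.1 : Set G)).subtype)
      (comm_map φ F.1) x (HG.map n (centConj g F.1 F'.1 h) z)
  have h1 : ∀ (γ : Subgroup.centralizer (F'.1 : Set G)) (a : F.1),
      ((φ.comp F'.1.subtype).comp (conjHom g F.1 F'.1 h)) a *
        (φ.comp (Subgroup.centralizer (F'.1 : Set G)).subtype) γ =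
      (φ.comp (Subgroup.centralizer (F'.1 : Set G)).subtype) γ *
        ((φ.comp F'.1.subtype).comp (conjHom g F.1 F'.1 h)) a := fun γ a =>
    comm_map φ F'.1 γ (conjHom g F.1 F'.1 h a)
  have h2 : ∀ (γ : Subgroup.centralizer (F'.1 : Set G)) (a : F.1),
      (φ.comp F.1.subtype) a * ((φ.comp (Subgroup.centralizer (F.1 : Set G)).subtype).comp
        (centConj g F.1 F'.1 h)) γ =
      ((φ.comp (Subgroup.centralizer (F.1 : Set G)).subtype).comp (centConj g F.1 F'.1 h)) γ *
        (φ.comp F.1.subtype) a := fun γ a => comm_map φ F.1 (centConj g F.1 F'.1 h γ) a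
  rw [gsymN_comp (φ.comp F'.1.subtype) (conjHom g F.1 F'.1 h) _ (comm_map φ F'.1) h1,
    gsymN_map (φ.comp F.1.subtype) _ (centConj g F.1 F'.1 h) (comm_map φ F.1) h2]
  apply gsymN_conj _ _ _ _ (φ g)
  · intro a
    change φ (g * a * g⁻¹) = φ g * φ a * (φ g)⁻¹
    rw [map_mul, map_mul, map_inv]
  · intro γ
    change φ γ = φ g * φ (g⁻¹ * γ * g) * (φ g)⁻¹
    rw [map_mul, map_mul, map_inv]
    group

/-- homomorphisms which agree on the symbols agree -/
theorem homN_ext {M : Type*} [AddCommGroup M] {f g : HnKm1 R G n →+ M}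
    (h : ∀ (F : FamSub G FinSub) (x : Km1 (MonoidAlgebra R F.1))
      (z : HG (Subgroup.centralizer (F.1 : Set G)) n), f (sym F x z) = g (sym F x z)) : f = g := by
  apply QuotientAddGroup.addMonoidHom_ext (SymRel R G n)
  apply FreeAbelianGroup.lift_ext
  rintro ⟨F, x, z⟩
  exact h F x z

/-- Functoriality of the source of the assembly map. -/
noncomputable def mapHN (φ : G →* G') : HnKm1 R G n →+ HnKm1 R G' n :=
  HnKm1.lift (symFN R n φ) (symFN_conj R n φ)

theorem mapHN_sym (φ : G →* G') (F : FamSub G FinSub) (x : Km1 (MonoidAlgebra R F.1))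
    (z : HG (Subgroup.centralizer (F.1 : Set G)) n) (hF : Finite F.1) :
    mapHN R n φ (sym F x z) = gsymN (φ.comp F.1.subtype)
      (φ.comp (Subgroup.centralizer (F.1 : Set G)).subtype) (comm_map φ F.1) x z :=
  HnKm1.lift_sym _ _ F x z

theorem mapHN_gsymN (φ : G →* G') {H : Type*} [Group H] [Finite H] {Γ : Type*} [Group Γ]
    (f : H →* G) (κ : Γ →* G) (h : ∀ γ a, f a * κ γ = κ γ * f a)
    (h' : ∀ γ a, (φ.comp f) a * (φ.comp κ) γ = (φ.comp κ) γ * (φ.comp f) a)
    (x : Km1 (MonoidAlgebra R H)) (z : HG Γ n) :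
    mapHN R n φ (gsymN f κ h x z) = gsymN (φ.comp f) (φ.comp κ) h' x z := by
  have hfin : Finite (rangeF f).1 := (rangeF f).2
  rw [gsymN, mapHN_sym R n φ (rangeF f) _ _ hfin,
    gsymN_comp (φ.comp (rangeF f).1.subtype) f.rangeRestrict _ (comm_map φ (rangeF f).1)
      (fun γ a => comm_map φ (rangeF f).1 γ (f.rangeRestrict a)),
    gsymN_map ((φ.comp (rangeF f).1.subtype).comp f.rangeRestrict)
      (φ.comp (Subgroup.centralizer ((rangeF f).1 : Set G)).subtype) (centRestrict f κ h) _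
      (fun γ a => h' γ a)]
  rfl

theorem mapHN_mapHN {G'' : Type*} [Group G''] (φ : G →* G') (ψ : G' →* G'') (z : HnKm1 R G n) :
    mapHN R n ψ (mapHN R n φ z) = mapHN R n (ψ.comp φ) z := by
  suffices H : (mapHN R n ψ).comp (mapHN R n φ) = mapHN R n (ψ.comp φ) from
    DFunLike.congr_fun H z
  refine homN_ext R n fun F x z => ?_
  have : Finite F.1 := F.2
  rw [AddMonoidHom.comp_apply, mapHN_sym R n φ F x z this,
    mapHN_sym R n (ψ.comp φ) F x z this]
  exact mapHN_gsymN R n ψ _ _ _ _ x z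

theorem asmKm1_gsymN {H : Type*} [Group H] [Finite H] {Γ : Type*} [Group Γ]
    (f : H →* G) (κ : Γ →* G) (h : ∀ γ a, f a * κ γ = κ γ * f a)
    (x : Km1 (MonoidAlgebra R H)) (z : HG Γ n) :
    asmKm1 R n G (gsymN f κ h x z) = pr R n f κ h x z := by
  rw [gsymN, asmKm1_sym, pr_comp R n (rangeF f).1.subtype f.rangeRestrict _
      (cent_comm (rangeF f).1) (fun γ a => cent_comm (rangeF f).1 γ (f.rangeRestrict a)),
    pr_map R n _ _ (centRestrict f κ h) _ h]
  rfl

theorem map_pr' (φ : G →* G') {H : Type*} [Group H] {Γ : Type*} [Group Γ]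
    (f : H →* G) (κ : Γ →* G) (h : ∀ γ a, f a * κ γ = κ γ * f a)
    (h' : ∀ γ a, (φ.comp f) a * (φ.comp κ) γ = (φ.comp κ) γ * (φ.comp f) a)
    (x : Km1 (MonoidAlgebra R H)) (z : HG Γ n) :
    LKQ.map (MonoidAlgebra.mapDomainRingHom R φ) (pr R n f κ h x z) =
      pr R n (φ.comp f) (φ.comp κ) h' x z := by
  have e1 : (MonoidAlgebra.mapDomainRingHom R φ).comp (MonoidAlgebra.mapDomainRingHom R f) =
      MonoidAlgebra.mapDomainRingHom R (φ.comp f) :=
    (MonoidAlgebra.mapDomainRingHom_comp _ _).symm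
  have e2 : (Units.map ((MonoidAlgebra.mapDomainRingHom R φ :
      MonoidAlgebra R G →+* MonoidAlgebra R G') : MonoidAlgebra R G →* MonoidAlgebra R G')).comp
      ((grpHom R G).comp κ) = (grpHom R G').comp (φ.comp κ) := by
    refine MonoidHom.ext fun γ => Units.ext ?_
    change MonoidAlgebra.mapDomain φ (MonoidAlgebra.single (κ γ) 1) =
      MonoidAlgebra.single (φ (κ γ)) 1
    rw [MonoidAlgebra.mapDomain_single]
  have hc : ∀ γ b, ((MonoidAlgebra.mapDomainRingHom R φ).comp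
      (MonoidAlgebra.mapDomainRingHom R f)) b *
      (((Units.map ((MonoidAlgebra.mapDomainRingHom R φ :
        MonoidAlgebra R G →+* MonoidAlgebra R G') : MonoidAlgebra R G →*
          MonoidAlgebra R G')).comp ((grpHom R G).comp κ)) γ : MonoidAlgebra R G') =
      ((Units.map ((MonoidAlgebra.mapDomainRingHom R φ :
        MonoidAlgebra R G →+* MonoidAlgebra R G') : MonoidAlgebra R G →*
          MonoidAlgebra R G')).comp ((grpHom R G).comp κ)) γ *
        ((MonoidAlgebra.mapDomainRingHom R φ).comp (MonoidAlgebra.mapDomainRingHom R f)) b := by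
    rw [e1, e2]
    exact grpHom_comm R (φ.comp f) (φ.comp κ) h'
  exact (map_lasm _ _ _ _ hc x z).trans (lasm_congr e1 e2 _ _ x z)

/-- **The assembly map is natural in the group.** -/
theorem asmKm1_map (φ : G →* G') (z : HnKm1 R G n) :
    asmKm1 R n G' (mapHN R n φ z) =
      LKQ.map (MonoidAlgebra.mapDomainRingHom R φ) (asmKm1 R n G z) := by
  suffices H : (asmKm1 R n G').comp (mapHN R n φ) =
      (LKQ.map (MonoidAlgebra.mapDomainRingHom R φ)).comp (asmKm1 R n G) from
    DFunLike.congr_fun H z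
  refine homN_ext R n fun F x z => ?_
  have : Finite F.1 := F.2
  rw [AddMonoidHom.comp_apply, AddMonoidHom.comp_apply, mapHN_sym R n φ F x z this,
    asmKm1_gsymN, asmKm1_sym]
  exact (map_pr' R n φ _ _ _ _ x z).symm

/-- **Every class comes from the subgroups which contain a finite set.** -/
theorem exists_liftN (z : HnKm1 R G n) :
    ∃ S : Finset G, ∀ G' : Subgroup G, (∀ s ∈ S, s ∈ G') →
      ∃ y : HnKm1 R G' n, mapHN R n G'.subtype y = z := by
  classical
  induction z using sym_induction with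
  | h0 => exact ⟨∅, fun G' _ => ⟨0, map_zero _⟩⟩
  | h1 F x z =>
    have hfin : Finite F.1 := F.2
    have : Fintype F.1 := Fintype.ofFinite _
    obtain ⟨S, hS⟩ := HG.exists_lift z
    refine ⟨(Finset.univ.image fun a : F.1 => (a : G)) ∪ S.image (Subgroup.centralizer (F.1 : Set G)).subtype, ?_⟩
    intro G' hG'
    have hF : ∀ a : F.1, (a : G) ∈ G' := fun a =>
      hG' _ (Finset.mem_union_left _ (Finset.mem_image_of_mem _ (Finset.mem_univ a)))
    obtain ⟨y, hy⟩ := hS (G'.subgroupOf (Subgroup.centralizer (F.1 : Set G))) fun s hs =>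
      hG' _ (Finset.mem_union_right _ (Finset.mem_image_of_mem _ hs))
    let f1 : F.1 →* G' := F.1.subtype.codRestrict G' hF
    let κ1 : G'.subgroupOf (Subgroup.centralizer (F.1 : Set G)) →* G' :=
      ((Subgroup.centralizer (F.1 : Set G)).subtype.comp
        (G'.subgroupOf (Subgroup.centralizer (F.1 : Set G))).subtype).codRestrict G' fun γ => γ.2
    have hc : ∀ γ a, f1 a * κ1 γ = κ1 γ * f1 a := fun γ a =>
      Subtype.ext (cent_comm F.1 γ.1 a)
    refine ⟨gsymN f1 κ1 hc x y, ?_⟩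
    rw [mapHN_gsymN R n G'.subtype f1 κ1 hc (fun γ a => cent_comm F.1 γ.1 a)]
    rw [sym_eq_gsymN F x z hfin, ← hy, gsymN_map _ _ _ _ (fun γ a => cent_comm F.1 γ.1 a)]
    rfl
  | h2 a b ha hb =>
    obtain ⟨S1, h1⟩ := ha
    obtain ⟨S2, h2⟩ := hb
    refine ⟨S1 ∪ S2, fun G' hG' => ?_⟩
    obtain ⟨y1, e1⟩ := h1 G' fun s hs => hG' s (Finset.mem_union_left _ hs)
    obtain ⟨y2, e2⟩ := h2 G' fun s hs => hG' s (Finset.mem_union_right _ hs)
    exact ⟨y1 + y2, by rw [map_add, e1, e2]⟩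
  | h3 a ha =>
    obtain ⟨S, hS⟩ := ha
    refine ⟨S, fun G' hG' => ?_⟩
    obtain ⟨y, hy⟩ := hS G' hG'
    exact ⟨-y, by rw [map_neg, hy]⟩

end

end Pool.Agent.H8.KL
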