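import Pool.Agent.H8.KL.Un

/-!
# Project KL, module Nm: the norm of a unit

`TU_norm` : for `j : D → C` injective, `C` finite commutative, and a unit `u` of `ℤ[C]` there is a unit `z` of `ℤ[D]`
with `TU p z d = [C : j(D)] TU p u (j d)` for all primes `p`.
-/

set_option autoImplicit false

open Matrix

universe u v w

namespace Pool.Agent.H8.KL

/-- The norm of a unit under a homomorphism to a matrix ring. -/
private theorem nm_det {R : Type*} [Ring R] {S : Type*} [CommRing S] {J : Type*} [Fintype J]
    [DecidableEq J] (ρ : R →+* Matrix J J S) (u : Rˣ) :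
    ∃ z : Sˣ, ∀ (e N : ℕ) (f : R), (N : R) * f = (u : R) ^ e - 1 →
      ∃ w : S, (N : S) * (trace (ρ f) + (N : S) * w) = (z : S) ^ e - 1 := by
  refine ⟨⟨det (ρ u), det (ρ (u⁻¹ : Rˣ)), ?_, ?_⟩, ?_⟩
  · rw [← det_mul, ← map_mul, Units.mul_inv, map_one, det_one]
  · rw [← det_mul, ← map_mul, Units.inv_mul, map_one, det_one]
  · intro e N f hf
    have h1 : (u : R) ^ e = 1 + (N : R) * f := by rw [hf]; abel
    have h2 : (det (ρ u)) ^ e = det (1 + (N : S) • ρ f) := by
      rw [← det_pow, ← map_pow, h1, map_add, map_one, map_mul, map_natCast]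
      congr 2
      ext i j
      rw [Matrix.smul_apply, smul_eq_mul, ← Matrix.diagonal_natCast, Matrix.diagonal_mul]
    have h3 := Matrix.det_one_add_smul (N : S) (ρ f)
    refine ⟨(det (1 + (Polynomial.X : Polynomial S) • (ρ f).map Polynomial.C)).divX.divX.eval
      (N : S), ?_⟩
    show _ = (det (ρ u)) ^ e - 1
    rw [h2, h3]
    ring

open scoped Classical in
private theorem nm_trace {C : Type v} [Group C] (hC : ∀ a b : C, a * b = b * a)
    (D : Subgroup C) [Fintype (C ⧸ D)] (f : MonoidAlgebra ℤ C) (d : D) :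
    (trace (H71.FJ.lamR ℤ D f)).coeff d = D.index * f.coeff (d : C) := by
  have hidx : (D.index : ℤ) = Fintype.card (C ⧸ D) := by
    rw [Subgroup.index_eq_card, Nat.card_eq_fintype_card]
  induction f using MonoidAlgebra.induction_linear with
  | zero => simp
  | add a b ha hb =>
    rw [map_add, trace_add, MonoidAlgebra.coeff_add, MonoidAlgebra.coeff_add, Finsupp.add_apply,
      Finsupp.add_apply, ha, hb, mul_add]
  | single h r =>
    have h1 : ∀ x : C ⧸ D, (H71.FJ.lamR ℤ D (MonoidAlgebra.single h r) x x).coeff d =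
        (MonoidAlgebra.single h r).coeff (d : C) := by
      intro x
      change (H71.FJ.lam ℤ D (MonoidAlgebra.single h r) x x).coeff d = _
      rw [H71.FJ.lam_single]
      have e : x.out⁻¹ * h * x.out = h := by
        rw [mul_assoc, hC h, ← mul_assoc, inv_mul_cancel, one_mul]
      by_cases hh : x.out⁻¹ * h * x.out ∈ D
      · rw [dif_pos hh, MonoidAlgebra.coeff_single, MonoidAlgebra.coeff_single]
        rw [Finsupp.single_apply, Finsupp.single_apply]
        by_cases hd : h = (d : C)
        · rw [if_pos hd, if_pos (Subtype.ext (e.trans hd))]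
        · rw [if_neg hd, if_neg (fun h' => hd (e.symm.trans (congrArg Subtype.val h')))]
      · rw [dif_neg hh, MonoidAlgebra.coeff_single, Finsupp.single_apply, if_neg]
        · rfl
        · intro hd
          apply hh
          rw [e, hd]
          exact d.2
    rw [Matrix.trace, MonoidAlgebra.coeff_sum, Finsupp.finsetSum_apply]
    simp only [Matrix.diag_apply]
    rw [Finset.sum_congr rfl (fun x _ => h1 x), Finset.sum_const, Finset.card_univ, hidx]
    simp

private theorem nm_sub {C : Type v} [Group C] [Finite C]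
    (hC : ∀ a b : C, a * b = b * a) (D : Subgroup C) (u : (MonoidAlgebra ℤ C)ˣ) :
    ∃ z : (MonoidAlgebra ℤ D)ˣ, ∀ (p : ℕ) [Fact p.Prime] (d : D),
      TU p z d = D.index • TU p u (d : C) := by
  classical
  have hD : ∀ a b : D, a * b = b * a := fun a b => Subtype.ext (hC a b)
  let _ : Fintype (C ⧸ D) := Fintype.ofFinite _
  let _ : CommRing (MonoidAlgebra ℤ D) :=
    { (inferInstance : Ring (MonoidAlgebra ℤ D)) with mul_comm := ma_comm hD }
  obtain ⟨z, hz⟩ := nm_det (H71.FJ.lamR ℤ D) u
  refine ⟨z, ?_⟩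
  intro p _ d
  exact lgU_norm p (ma_comm hC) (ma_comm hD) (finP p) (cf (d : C)) (cf d)
    ((Matrix.traceAddMonoidHom (C ⧸ D) (MonoidAlgebra ℤ D)).comp
      (H71.FJ.lamR ℤ D).toAddMonoidHom) D.index (fun a => nm_trace hC D a d) u z hz

theorem TU_norm {C D : Type v} [Group C] [Finite C] [Group D]
    (hC : ∀ a b : C, a * b = b * a) (j : D →* C)
    (hj : Function.Injective j) (u : (MonoidAlgebra ℤ C)ˣ) :
    ∃ z : (MonoidAlgebra ℤ D)ˣ, ∀ (p : ℕ) [Fact p.Prime] (d : D),
      TU p z d = j.range.index • TU p u (j d) := by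
  obtain ⟨z', hz'⟩ := nm_sub hC j.range u
  let e : D ≃* j.range := MonoidHom.ofInjective hj
  have : Finite D := Finite.of_injective j hj
  have hD : ∀ a b : D, a * b = b * a := fun a b => hj (by rw [map_mul, map_mul, hC])
  have hr : ∀ a b : j.range, a * b = b * a := fun a b => Subtype.ext (hC a b)
  refine ⟨mU e.symm.toMonoidHom z', ?_⟩
  intro p _ d
  have h1 := hz' p (e d)
  have h2 : ((e d : j.range) : C) = j d := rfl
  rw [h2] at h1
  rw [← h1]
  have h3 := TU_map hr hD e.symm.toMonoidHom e.symm.injective p z' (e d)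
  have h4 : e.symm.toMonoidHom (e d) = d := e.symm_apply_apply d
  rw [h4] at h3
  exact h3

end Pool.Agent.H8.KL
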