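import Pool.Agent.H8.KL.Nm
import Pool.Agent.H95.WH.Main
import Pool.Agent.H16.FU.Defs1

/-!
# Project KL, module Prim: decomposition of the symbols into primitive symbols

`Prim C v` : the logarithms of the unit `v` of `ℤ[C]` vanish at the elements that do not generate `C`.
`iK h` : the map `K₁(ℤ[D]) → K₁(ℤ[C])` for `D ≤ C`.

* `low` : `m [u] = [w] + ∑ [v_a]`, `v_a` units of `ℤ[D a]`, `D a < C`, `w` primitive;
* `mem_closure_prim` : a multiple of every element of `HnK1 ℤ G k` is a sum of symbols `[C, v, z]` with `C` finite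
  cyclic and `v` primitive (`Tr`, `Tr.val`).
-/

set_option autoImplicit false

open Matrix

universe u v w

namespace Pool.Agent.H8.KL

open Pool.Agent.H95.WH (K1 K1.mk K1.map K1.unit K1.map_unit K1.unit_mul FamSub conjHom FinSub uH
  unit_pow exists_unit artin_K1 ind)
open Pool.Agent.H71.FQ (HG HG.map centConj)
open Pool.Agent.H16.FU (HnK1 sy1 sy1_add sy1_addz sy1_conj syB1 syB1_apply hnk1_induction)

section K

variable {G : Type v} [Group G]

/-- the map `K₁(ℤ[D]) → K₁(ℤ[C])` for `D ≤ C` -/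
noncomputable def iK {D C : Subgroup G} (h : D ≤ C) :
    K1 (MonoidAlgebra ℤ D) →+ K1 (MonoidAlgebra ℤ C) :=
  K1.map (MonoidAlgebra.mapDomainRingHom ℤ (Subgroup.inclusion h))

theorem iK_unit {D C : Subgroup G} (h : D ≤ C) (v : (MonoidAlgebra ℤ D)ˣ) :
    iK h (K1.unit v) = K1.unit (mU (Subgroup.inclusion h) v) := by
  rw [iK, K1.map_unit]
  rfl

theorem unit_one' {R : Type u} [Ring R] : K1.unit (1 : Rˣ) = 0 := map_zero (uH R)

theorem unit_inv' {R : Type u} [Ring R] (u : Rˣ) : K1.unit u⁻¹ = - K1.unit u :=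
  map_neg (uH R) (Additive.ofMul u)

/-- the logarithms vanish at the elements that do not generate `C` -/
def Prim (C : Subgroup G) (v : (MonoidAlgebra ℤ C)ˣ) : Prop :=
  ∀ (p : ℕ) [Fact p.Prime] (d : C), Subgroup.zpowers (d : G) ≠ C → TU p v d = 0

theorem low (C : Subgroup G) [Finite C] (hC : ∀ a b : C, a * b = b * a)
    (u : (MonoidAlgebra ℤ C)ˣ) (L : List (Subgroup G)) : (∀ D ∈ L, D < C) →
    ∃ (m r : ℕ) (D : Fin r → Subgroup G) (hD : ∀ a, D a < C)
      (v : ∀ a, (MonoidAlgebra ℤ (D a))ˣ) (w : (MonoidAlgebra ℤ C)ˣ), 0 < m ∧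
      m • K1.unit u = K1.unit w + ∑ a, iK (hD a).le (K1.unit (v a)) ∧
      ∀ E ∈ L, ∀ (p : ℕ) [Fact p.Prime] (c : C), (c : G) ∈ E → TU p w c = 0 := by
  induction L with
  | nil =>
    intro _
    exact ⟨1, 0, fun a => a.elim0, fun a => a.elim0, fun a => a.elim0, u, one_pos, by simp,
      by simp⟩
  | cons D0 L ih =>
    intro hL
    obtain ⟨m, r, D, hD, v, w, hm, h1, h2⟩ := ih fun D hD => hL D (List.mem_cons_of_mem _ hD)
    have hD0 : D0 < C := hL D0 List.mem_cons_self
    have hfin0 : Finite D0 := Finite.of_injective _ (Subgroup.inclusion_injective hD0.le)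
    have hcom0 : ∀ a b : D0, a * b = b * a := fun a b =>
      Subgroup.inclusion_injective hD0.le (by rw [map_mul, map_mul, hC])
    obtain ⟨z, hz⟩ := TU_norm hC (Subgroup.inclusion hD0.le)
      (Subgroup.inclusion_injective hD0.le) w
    obtain ⟨n, hn⟩ : ∃ n, n = (Subgroup.inclusion hD0.le).range.index := ⟨_, rfl⟩
    have hn0 : 0 < n := by
      rw [hn]
      exact Nat.pos_of_ne_zero Subgroup.index_ne_zero_of_finite
    rw [← hn] at hz
    refine ⟨n * m, r + 1, Fin.cons D0 D, Fin.cases hD0 hD,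
      Fin.cases (motive := fun a => (MonoidAlgebra ℤ ((Fin.cons D0 D : Fin (r + 1) → Subgroup G) a))ˣ)
        z (fun a => v a ^ n), w ^ n * (mU (Subgroup.inclusion hD0.le) z)⁻¹,
      Nat.mul_pos hn0 hm, ?_, ?_⟩
    · rw [mul_smul, h1, Fin.sum_univ_succ, smul_add, Finset.smul_sum, K1.unit_mul, unit_inv',
        unit_pow, ← iK_unit hD0.le]
      have e1 : ∀ a : Fin r, n • iK (hD a).le (K1.unit (v a)) =
          iK (hD a).le (K1.unit (v a ^ n)) := by
        intro a
        rw [unit_pow, map_nsmul]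
      rw [Finset.sum_congr rfl fun a _ => e1 a]
      change _ = n • K1.unit w + -iK hD0.le (K1.unit z) + (iK hD0.le (K1.unit z) +
        ∑ a, iK (hD a).le (K1.unit (v a ^ n)))
      abel
    · intro E hE p _ c hc
      rw [TU_mul hC, TU_inv hC, TU_pow hC]
      by_cases hc0 : (c : G) ∈ D0
      · have h3 := TU_map hcom0 hC (Subgroup.inclusion hD0.le)
          (Subgroup.inclusion_injective hD0.le) p z ⟨(c : G), hc0⟩
        have h4 : Subgroup.inclusion hD0.le ⟨(c : G), hc0⟩ = c := rfl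
        rw [hz p, h4] at h3
        rw [h3, add_neg_cancel]
      · rw [TU_map_ne hcom0 hC (Subgroup.inclusion hD0.le) p z c, neg_zero, add_zero]
        · rcases List.mem_cons.1 hE with rfl | hE
          · exact absurd hc hc0
          · rw [h2 E hE p c hc, smul_zero]
        · intro d hd
          apply hc0
          rw [← hd]
          exact d.2

theorem low_prim (C : Subgroup G) [Finite C] (hC : ∀ a b : C, a * b = b * a)
    (u : (MonoidAlgebra ℤ C)ˣ) :
    ∃ (m r : ℕ) (D : Fin r → Subgroup G) (hD : ∀ a, D a < C)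
      (v : ∀ a, (MonoidAlgebra ℤ (D a))ˣ) (w : (MonoidAlgebra ℤ C)ˣ), 0 < m ∧
      m • K1.unit u = K1.unit w + ∑ a, iK (hD a).le (K1.unit (v a)) ∧ Prim C w := by
  classical
  let _ : Fintype C := Fintype.ofFinite C
  obtain ⟨m, r, D, hD, v, w, hm, h1, h2⟩ := low C hC u
    (((Finset.univ : Finset C).filter (fun c : C => Subgroup.zpowers (c : G) ≠ C)).toList.map
      (fun c : C => Subgroup.zpowers (c : G))) (by
      intro E hE
      rw [List.mem_map] at hE
      obtain ⟨c, hc, rfl⟩ := hE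
      rw [Finset.mem_toList, Finset.mem_filter] at hc
      exact lt_of_le_of_ne (by rw [Subgroup.zpowers_le]; exact c.2) hc.2)
  refine ⟨m, r, D, hD, v, w, hm, h1, ?_⟩
  intro p _ d hd
  refine h2 (Subgroup.zpowers (d : G)) ?_ p d (Subgroup.mem_zpowers _)
  rw [List.mem_map]
  exact ⟨d, by rw [Finset.mem_toList, Finset.mem_filter]; exact ⟨Finset.mem_univ _, hd⟩, rfl⟩

end K

section Tr

/-- a symbol `[C, v, z]` with `C` finite cyclic and `v` a unit of `ℤ[C]` -/
structure Tr (G : Type v) [Group G] (k : ℕ) where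
  /-- the subgroup -/
  C : Subgroup G
  fin : Finite C
  cyc : IsCyclic C
  /-- the unit -/
  u : (MonoidAlgebra ℤ C)ˣ
  /-- the homology class -/
  z : HG (Subgroup.centralizer (C : Set G)) k

variable {G : Type v} [Group G] {k : ℕ}

/-- the value of a symbol -/
noncomputable def Tr.val (t : Tr G k) : HnK1 ℤ G k := sy1 ⟨t.C, t.fin⟩ (K1.unit t.u) t.z

theorem Tr.comm (t : Tr G k) (a b : t.C) : a * b = b * a := by
  have := t.cyc
  exact (IsCyclic.commGroup (α := t.C)).mul_comm a b

/-- the subgroup generated by the primitive symbols -/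
noncomputable def PS (G : Type v) [Group G] (k : ℕ) : AddSubgroup (HnK1 ℤ G k) :=
  AddSubgroup.closure {x | ∃ t : Tr G k, Prim t.C t.u ∧ x = t.val}

/-- the elements with a multiple in `PS` -/
def MP (x : HnK1 ℤ G k) : Prop := ∃ m : ℕ, 0 < m ∧ m • x ∈ PS G k

theorem MP.zero : MP (0 : HnK1 ℤ G k) := ⟨1, one_pos, by rw [smul_zero]; exact zero_mem _⟩

theorem MP.add {x y : HnK1 ℤ G k} (hx : MP x) (hy : MP y) : MP (x + y) := by
  obtain ⟨m, hm, h⟩ := hx
  obtain ⟨n, hn, h'⟩ := hy
  refine ⟨m * n, Nat.mul_pos hm hn, ?_⟩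
  rw [smul_add]
  refine add_mem ?_ ?_
  · rw [mul_comm, mul_smul]
    exact AddSubgroup.nsmul_mem _ h n
  · rw [mul_smul]
    exact AddSubgroup.nsmul_mem _ h' m

theorem MP.neg {x : HnK1 ℤ G k} (hx : MP x) : MP (-x) := by
  obtain ⟨m, hm, h⟩ := hx
  exact ⟨m, hm, by rw [smul_neg]; exact neg_mem h⟩

theorem MP.of_smul {x : HnK1 ℤ G k} {m : ℕ} (hm : 0 < m) (h : MP (m • x)) : MP x := by
  obtain ⟨n, hn, h'⟩ := h
  exact ⟨n * m, Nat.mul_pos hn hm, by rw [mul_smul]; exact h'⟩

theorem MP.sum {ι : Type*} (s : Finset ι) (f : ι → HnK1 ℤ G k) (h : ∀ i ∈ s, MP (f i)) :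
    MP (∑ i ∈ s, f i) := by
  classical
  induction s using Finset.induction_on with
  | empty => rw [Finset.sum_empty]; exact MP.zero
  | insert i s hi ih =>
    rw [Finset.sum_insert hi]
    exact (h i (Finset.mem_insert_self i s)).add
      (ih fun j hj => h j (Finset.mem_insert_of_mem hj))

/-- the symbol of an element from a subgroup -/
theorem sy1_iK {D C : Subgroup G} (h : D ≤ C) (hD : FinSub D) (hC : FinSub C)
    (x : K1 (MonoidAlgebra ℤ D)) (z : HG (Subgroup.centralizer (C : Set G)) k) :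
    ∃ z', sy1 (k := ℤ) (G := G) (n := k) ⟨C, hC⟩ (iK h x) z = sy1 ⟨D, hD⟩ x z' := by
  have hc : ∀ x ∈ D, (1 : G) * x * 1⁻¹ ∈ C := by
    intro x hx
    rw [one_mul, inv_one, mul_one]
    exact h hx
  have h1 := sy1_conj (k := ℤ) (n := k) ⟨D, hD⟩ ⟨C, hC⟩ 1 hc x z
  have h2 : conjHom (1 : G) D C hc = Subgroup.inclusion h := by
    ext y
    change 1 * (y : G) * 1⁻¹ = y
    group
  rw [h2] at h1
  exact ⟨_, h1⟩

theorem MP_unit : ∀ (n : ℕ) (t : Tr G k), Nat.card t.C ≤ n → MP t.val := by
  intro n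
  induction n with
  | zero =>
    intro t ht
    have := t.fin
    have h1 : 0 < Nat.card t.C := Nat.card_pos
    omega
  | succ n ih =>
    intro t ht
    have := t.fin
    have hcyc := t.cyc
    obtain ⟨m, r, D, hD, v, w, hm, h1, h2⟩ := low_prim t.C t.comm t.u
    apply MP.of_smul hm
    have e1 : m • t.val = syB1 ⟨t.C, t.fin⟩ (m • K1.unit t.u) t.z := by
      rw [map_nsmul, AddMonoidHom.coe_smul, Pi.smul_apply, syB1_apply]
      rfl
    rw [e1, h1, map_add, map_sum, AddMonoidHom.add_apply, AddMonoidHom.finsetSum_apply]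
    refine MP.add ?_ (MP.sum _ _ fun a _ => ?_)
    · refine ⟨1, one_pos, ?_⟩
      rw [one_smul, syB1_apply]
      exact AddSubgroup.subset_closure ⟨⟨t.C, t.fin, t.cyc, w, t.z⟩, h2, rfl⟩
    · have hf : Finite (D a) := Finite.of_injective _ (Subgroup.inclusion_injective (hD a).le)
      have hc : IsCyclic (D a) := isCyclic_of_injective _ (Subgroup.inclusion_injective (hD a).le)
      obtain ⟨z', hz'⟩ := sy1_iK (k := k) (hD a).le hf t.fin (K1.unit (v a)) t.z
      rw [syB1_apply, hz']
      refine ih ⟨D a, hf, hc, v a, z'⟩ ?_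
      have h3 : Nat.card (D a) < Nat.card t.C := by
        by_contra hcon
        have h4 := Subgroup.eq_of_le_of_card_ge (hD a).le (not_lt.1 hcon)
        exact (hD a).ne h4
      change Nat.card (D a) ≤ n
      omega

/-- symbols of elements induced from subgroups of a finite subgroup -/
theorem sy1_ind (F : FamSub G FinSub) (D : Subgroup F.1) (y : K1 (MonoidAlgebra ℤ D))
    (hfin : FinSub (D.map F.1.subtype)) (z : HG (Subgroup.centralizer (F.1 : Set G)) k) :
    ∃ z', sy1 (k := ℤ) F (ind D.subtype y) z = sy1 ⟨D.map F.1.subtype, hfin⟩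
      (K1.map (MonoidAlgebra.mapDomainRingHom ℤ
        (D.equivMapOfInjective F.1.subtype F.1.subtype_injective).toMonoidHom) y) z' := by
  have h : D.map F.1.subtype ≤ F.1 := by
    rintro _ ⟨x, _, rfl⟩
    exact x.2
  obtain ⟨z', hz'⟩ := sy1_iK (k := k) h hfin F.2 (K1.map (MonoidAlgebra.mapDomainRingHom ℤ
        (D.equivMapOfInjective F.1.subtype F.1.subtype_injective).toMonoidHom) y) z
  refine ⟨z', ?_⟩
  rw [← hz', iK, K1.map_map, ← MonoidAlgebra.mapDomainRingHom_comp]
  rfl

/-- **A multiple of every element is a sum of primitive symbols.** -/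
theorem MP_all (x : HnK1 ℤ G k) : MP x := by
  induction x using hnk1_induction with
  | h0 => exact MP.zero
  | h2 a b ha hb => exact ha.add hb
  | h3 a ha => exact ha.neg
  | h1 F x z =>
    have : Finite F.1 := F.2
    obtain ⟨m, r, D, y, hm, hcyc, h⟩ := artin_K1 F.1 x
    apply MP.of_smul hm
    have e1 : m • sy1 F x z = syB1 F (m • x) z := by
      rw [map_nsmul, AddMonoidHom.coe_smul, Pi.smul_apply, syB1_apply]
    rw [e1, h, map_sum, AddMonoidHom.finsetSum_apply]
    refine MP.sum _ _ fun i _ => ?_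
    have hfin : Finite ((D i).map F.1.subtype) :=
      Finite.of_equiv _ ((D i).equivMapOfInjective F.1.subtype F.1.subtype_injective).toEquiv
    have hcyc' : IsCyclic ((D i).map F.1.subtype) := by
      have := hcyc i
      exact isCyclic_of_surjective
        ((D i).equivMapOfInjective F.1.subtype F.1.subtype_injective)
        ((D i).equivMapOfInjective F.1.subtype F.1.subtype_injective).surjective
    obtain ⟨z', hz'⟩ := sy1_ind F (D i) (y i) hfin z
    rw [syB1_apply, hz']
    obtain ⟨m', u, hm', h'⟩ := exists_unit (C := (D i).map F.1.subtype)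
      (fun a b => (IsCyclic.commGroup (α := (D i).map F.1.subtype)).mul_comm a b)
      (K1.map (MonoidAlgebra.mapDomainRingHom ℤ
        ((D i).equivMapOfInjective F.1.subtype F.1.subtype_injective).toMonoidHom) (y i))
    apply MP.of_smul hm'
    rw [← syB1_apply, ← AddMonoidHom.smul_apply, ← map_nsmul, h', syB1_apply]
    exact MP_unit _ ⟨(D i).map F.1.subtype, hfin, hcyc', u, z'⟩ le_rfl

theorem Tr.neg_val (t : Tr G k) :
    -t.val = (⟨t.C, t.fin, t.cyc, t.u, -t.z⟩ : Tr G k).val := by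
  have h1 : t.val = syB1 ⟨t.C, t.fin⟩ (K1.unit t.u) t.z := rfl
  have h2 : (⟨t.C, t.fin, t.cyc, t.u, -t.z⟩ : Tr G k).val =
      syB1 ⟨t.C, t.fin⟩ (K1.unit t.u) (-t.z) := rfl
  rw [h1, h2, map_neg]

theorem exists_list {x : HnK1 ℤ G k} (hx : x ∈ PS G k) :
    ∃ l : List (Tr G k), (∀ t ∈ l, Prim t.C t.u) ∧ x = (l.map Tr.val).sum := by
  induction hx using AddSubgroup.closure_induction with
  | mem x hx =>
    obtain ⟨t, ht, rfl⟩ := hx
    exact ⟨[t], by simpa using ht, by simp⟩
  | zero => exact ⟨[], by simp, by simp⟩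
  | add x y _ _ hx hy =>
    obtain ⟨l, h1, h2⟩ := hx
    obtain ⟨l', h1', h2'⟩ := hy
    refine ⟨l ++ l', ?_, ?_⟩
    · intro t ht
      rcases List.mem_append.1 ht with h | h
      · exact h1 t h
      · exact h1' t h
    · rw [List.map_append, List.sum_append, h2, h2']
  | neg x _ hx =>
    obtain ⟨l, h1, h2⟩ := hx
    refine ⟨l.map fun t => ⟨t.C, t.fin, t.cyc, t.u, -t.z⟩, ?_, ?_⟩
    · intro t ht
      obtain ⟨t', ht', rfl⟩ := List.mem_map.1 ht
      exact h1 t' ht'
    · rw [h2, List.map_map]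
      clear h1 h2
      induction l with
      | nil => simp
      | cons t l ih =>
        rw [List.map_cons, List.map_cons, List.sum_cons, List.sum_cons, neg_add, ih,
          Tr.neg_val]
        rfl

/-- **A multiple of every element is a finite sum of primitive symbols.** -/
theorem exists_prim (x : HnK1 ℤ G k) :
    ∃ (m n : ℕ) (t : Fin n → Tr G k), 0 < m ∧ (∀ i, Prim (t i).C (t i).u) ∧
      m • x = ∑ i, (t i).val := by
  obtain ⟨m, hm, h⟩ := MP_all x
  obtain ⟨l, h1, h2⟩ := exists_list h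
  refine ⟨m, l.length, fun i => l.get i, hm, fun i => h1 _ (List.get_mem l i), ?_⟩
  rw [h2]
  clear h h1 h2
  induction l with
  | nil => simp
  | cons t l ih =>
    rw [List.map_cons, List.sum_cons, ih]
    exact (Fin.sum_univ_succ (n := l.length) fun i => ((t :: l).get i).val).symm

end Tr

end Pool.Agent.H8.KL
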